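import Mathlib

set_option autoImplicit false
open Set Metric Topology Filter

namespace Pool.Agent.H.MP_77b145_gt

variable {X : Type} [MetricSpace X]

def Big (δ : ℝ) (C : Set X) : Prop := ∃ a ∈ C, ∃ b ∈ C, δ ≤ dist a b

def Nul (X : Type) [MetricSpace X] : Prop :=
  ∀ δ > 0, ∀ A : ℕ → Set X, (∀ n, IsPreconnected (A n)) →
    Pairwise (fun i j => Disjoint (A i) (A j)) → (∀ n, Big δ (A n)) → False

lemma big_of_closure {δ : ℝ} {C : Set X} {a b : X} (ha : a ∈ C) (hb : b ∈ closure C)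
    (h : δ < dist a b) : Big δ C := by
  obtain ⟨c, hc, h1⟩ := Metric.mem_closure_iff.1 hb (dist a b - δ) (by linarith)
  refine ⟨a, ha, c, hc, ?_⟩
  have := dist_triangle_right a b c
  linarith

lemma Nul.nest (hN : Nul X) {δ : ℝ} (hδ : 0 < δ) (s C : ℕ → Set X) (hs : ∀ n, s (n + 1) ⊆ s n)
    (h1 : ∀ n, C n ⊆ s n) (h2 : ∀ n, Disjoint (C n) (s (n + 1))) (h3 : ∀ n, IsPreconnected (C n))
    (h4 : ∀ n, Big δ (C n)) : False := by
  have hm : Antitone s := antitone_nat_of_succ_le hs
  refine hN δ hδ C h3 ?_ h4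
  have key : ∀ i j, i < j → Disjoint (C i) (C j) := fun i j h =>
    (h2 i).mono_right ((h1 j).trans (hm h))
  intro i j h
  rcases lt_or_gt_of_ne h with k | k
  · exact key i j k
  · exact (key j i k).symm

lemma Nul.near (hN : Nul X) {δ : ℝ} (hδ : 0 < δ) (G S : Set X) (hS : S ⊆ G)
    (hb : ∀ p ∈ S, Big δ (connectedComponentIn G p)) {y : X} (hy : y ∈ closure S) :
    ∃ p ∈ S, y ∈ closure (connectedComponentIn G p) := by
  have hf : ((fun p => connectedComponentIn G p) '' S).Finite := by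
    by_contra hi
    have hi' : ((fun p => connectedComponentIn G p) '' S).Infinite := hi
    let e := hi'.natEmbedding
    refine hN δ hδ (fun n => (e n : Set X)) ?_ ?_ ?_
    · intro n
      obtain ⟨p, -, hp⟩ := (e n).2
      rw [← hp]
      exact isPreconnected_connectedComponentIn
    · intro i j hij
      obtain ⟨p, -, hp⟩ := (e i).2
      obtain ⟨q, -, hq⟩ := (e j).2
      rw [Set.disjoint_left]
      intro z h1 h2
      rw [← hp] at h1
      rw [← hq] at h2
      apply hij
      apply e.injective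
      apply Subtype.ext
      rw [← hp, ← hq]
      exact (connectedComponentIn_eq h1).trans (connectedComponentIn_eq h2).symm
    · intro n
      obtain ⟨p, hp', hp⟩ := (e n).2
      rw [← hp]
      exact hb p hp'
  have h1 : S ⊆ ⋃₀ ((fun p => connectedComponentIn G p) '' S) := fun p hp =>
    ⟨_, ⟨p, hp, rfl⟩, mem_connectedComponentIn (hS hp)⟩
  have h2 := closure_mono h1 hy
  rw [hf.closure_sUnion] at h2
  simp only [mem_iUnion] at h2
  obtain ⟨_, ⟨p, hp, rfl⟩, h3⟩ := h2
  exact ⟨p, hp, h3⟩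

lemma cc_closed {L : Set X} (hL : IsClosed L) (p : X) : IsClosed (connectedComponentIn L p) := by
  by_cases hp : p ∈ L
  · refine isClosed_of_closure_subset ?_
    exact IsPreconnected.subset_connectedComponentIn
      (isPreconnected_connectedComponentIn.closure) (subset_closure (mem_connectedComponentIn hp))
      (hL.closure_subset_iff.2 (connectedComponentIn_subset _ _))
  · rw [connectedComponentIn_eq_empty hp]; exact isClosed_empty

lemma bump {K : Set X} (hK : IsCompact K) (hc : IsPreconnected K) {y p : X} {ε : ℝ}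
    (hn : ¬ K ⊆ closedBall y ε) (hp : p ∈ K ∩ closedBall y ε) :
    ∃ q ∈ connectedComponentIn (K ∩ closedBall y ε) p, dist q y = ε := by
  by_contra hq
  push Not at hq
  have hL : IsCompact (K ∩ closedBall y ε) := hK.inter_right isClosed_closedBall
  haveI : CompactSpace ↥(K ∩ closedBall y ε) := isCompact_iff_compactSpace.1 hL
  have h1 := connectedComponent_eq_iInter_isClopen (⟨p, hp⟩ : ↥(K ∩ closedBall y ε))
  have hS : IsCompact {z : ↥(K ∩ closedBall y ε) | dist z.1 y = ε} :=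
    (isClosed_eq (by fun_prop) continuous_const).isCompact
  have h2 : {z : ↥(K ∩ closedBall y ε) | dist z.1 y = ε} ∩
      ⋂ Z : {Z : Set ↥(K ∩ closedBall y ε) // IsClopen Z ∧ ⟨p, hp⟩ ∈ Z}, (Z : Set _) = ∅ := by
    rw [← h1]
    refine eq_empty_of_forall_notMem fun z hz => hq z.1 ?_ hz.1
    rw [connectedComponentIn_eq_image hp]
    exact ⟨z, hz.2, rfl⟩
  obtain ⟨t, ht⟩ := hS.elim_finite_subfamily_closed _ (fun Z => Z.2.1.1) h2
  have hZ : IsClopen (⋂ Z ∈ t, (Z : Set ↥(K ∩ closedBall y ε))) :=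
    isClopen_biInter_finset fun Z _ => Z.2.1
  have hpZ : (⟨p, hp⟩ : ↥(K ∩ closedBall y ε)) ∈ ⋂ Z ∈ t, (Z : Set ↥(K ∩ closedBall y ε)) :=
    mem_iInter₂.2 fun Z _ => Z.2.2
  generalize (⋂ Z ∈ t, (Z : Set ↥(K ∩ closedBall y ε))) = Z at ht hZ hpZ
  obtain ⟨U, hU, hU'⟩ := isOpen_induced_iff.1 hZ.2
  obtain ⟨F, hF, hF'⟩ := isClosed_induced_iff.1 hZ.1
  have := (isPreconnected_iff_subset_of_disjoint.1 hc) (U ∩ ball y ε) (F ∩ closedBall y ε)ᶜ
    (hU.inter isOpen_ball) (hF.inter isClosed_closedBall).isOpen_compl ?_ ?_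
  · rcases this with h | h
    · exact hn fun z hz => ball_subset_closedBall (h hz).2
    · exact h hp.1 ⟨by rw [← hF'] at hpZ; exact hpZ, hp.2⟩
  · intro z hz
    by_cases h : z ∈ F ∩ closedBall y ε
    · left
      have hz' : (⟨z, hz, h.2⟩ : ↥(K ∩ closedBall y ε)) ∈ Z := by rw [← hF']; exact h.1
      refine ⟨by rw [← hU'] at hz'; exact hz', ?_⟩
      refine mem_ball.2 (lt_of_le_of_ne (mem_closedBall.1 h.2) fun e => ?_)
      have : (⟨z, hz, h.2⟩ : ↥(K ∩ closedBall y ε)) ∈ (∅ : Set _) := by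
        rw [← ht]; exact ⟨e, hz'⟩
      exact this
    · exact Or.inr h
  · refine eq_empty_of_forall_notMem fun z hz => hz.2.2 ⟨?_, ball_subset_closedBall hz.2.1.2⟩
    have hz' : (⟨z, hz.1, ball_subset_closedBall hz.2.1.2⟩ : ↥(K ∩ closedBall y ε)) ∈ Z := by
      rw [← hU']; exact hz.2.1.1
    rw [← hF'] at hz'
    exact hz'

lemma Nul.lc (hN : Nul X) {K : Set X} (hK : IsCompact K) (hc : IsPreconnected K) {y : X}
    (hy : y ∈ K) {ε : ℝ} (hε : 0 < ε) :
    ∃ N, N ⊆ K ∩ closedBall y ε ∧ IsCompact N ∧ IsPreconnected N ∧ N ∈ 𝓝[K] y := by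
  by_cases hn : K ⊆ closedBall y ε
  · exact ⟨K, subset_inter subset_rfl hn, hK, hc, self_mem_nhdsWithin⟩
  have hL : IsCompact (K ∩ closedBall y ε) := hK.inter_right isClosed_closedBall
  refine ⟨connectedComponentIn (K ∩ closedBall y ε) y, connectedComponentIn_subset _ _,
    hL.of_isClosed_subset (cc_closed hL.isClosed _) (connectedComponentIn_subset _ _),
    isPreconnected_connectedComponentIn, ?_⟩
  by_contra h
  have h1 : y ∈ closure ((K ∩ ball y (ε / 2)) \ connectedComponentIn (K ∩ closedBall y ε) y) := by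
    rw [mem_closure_iff_nhds]
    intro t ht
    by_contra h2
    apply h
    rw [mem_nhdsWithin_iff_exists_mem_nhds_inter]
    refine ⟨t ∩ ball y (ε / 2), inter_mem ht (ball_mem_nhds _ (by linarith)), fun z hz => ?_⟩
    by_contra h3
    exact h2 ⟨z, hz.1.1, ⟨hz.2, hz.1.2⟩, h3⟩
  have h0 := hN.near (half_pos hε) (K ∩ closedBall y ε) _
    (fun z hz => ⟨hz.1.1, ball_subset_closedBall (ball_subset_ball (by linarith) hz.1.2)⟩) ?_ h1
  · obtain ⟨p, hp, h2⟩ := h0
    rw [(cc_closed hL.isClosed _).closure_eq] at h2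
    apply hp.2
    rw [← connectedComponentIn_eq h2]
    exact mem_connectedComponentIn
      ⟨hp.1.1, ball_subset_closedBall (ball_subset_ball (by linarith) hp.1.2)⟩
  · intro p hp
    have hp' : p ∈ K ∩ closedBall y ε :=
      ⟨hp.1.1, ball_subset_closedBall (ball_subset_ball (by linarith) hp.1.2)⟩
    obtain ⟨q, hq, e⟩ := bump hK hc hn hp'
    refine ⟨p, mem_connectedComponentIn hp', q, hq, ?_⟩
    have := dist_triangle_left q y p
    have := mem_ball.1 hp.1.2
    linarith

lemma Nul.locallyConnected [CompactSpace X] [ConnectedSpace X] (hN : Nul X) :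
    LocallyConnectedSpace X := by
  rw [locallyConnectedSpace_iff_connected_subsets]
  intro x U hU
  obtain ⟨ε, hε, h⟩ := Metric.nhds_basis_closedBall.mem_iff.1 hU
  obtain ⟨N, h1, -, h2, h3⟩ := hN.lc isCompact_univ isPreconnected_univ (mem_univ x) hε
  rw [nhdsWithin_univ] at h3
  exact ⟨N, h3, h2, fun z hz => h (h1 hz).2⟩

lemma fr_cc [LocallyConnectedSpace X] {G : Set X} (hG : IsOpen G) (p : X) :
    frontier (connectedComponentIn G p) ⊆ frontier G := by
  intro w hw
  rw [(hG.connectedComponentIn (x := p)).frontier_eq] at hw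
  rw [hG.frontier_eq]
  refine ⟨closure_mono (connectedComponentIn_subset _ _) hw.1, fun h => hw.2 ?_⟩
  obtain ⟨z, h1, h2⟩ := mem_closure_iff.1 hw.1 _ (hG.connectedComponentIn (x := w))
    (mem_connectedComponentIn h)
  rw [connectedComponentIn_eq h2, ← connectedComponentIn_eq h1]
  exact mem_connectedComponentIn h

lemma join [CompactSpace X] [LocallyConnectedSpace X] {w : Set X} (hw : IsOpen w)
    (hc : IsPreconnected w) {a b : X} (ha : a ∈ w) (hb : b ∈ w) :
    ∃ C, C ⊆ w ∧ IsCompact C ∧ IsPreconnected C ∧ a ∈ C ∧ b ∈ C := by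
  refine hc.induction₂' (fun a b => ∃ C, C ⊆ w ∧ IsCompact C ∧ IsPreconnected C ∧ a ∈ C ∧ b ∈ C)
    ?_ ?_ ha hb
  · intro x hx
    obtain ⟨ε, hε, h⟩ := Metric.nhds_basis_closedBall.mem_iff.1 (hw.mem_nhds hx)
    have h1 : connectedComponentIn (closedBall x ε) x ∈ 𝓝 x :=
      connectedComponentIn_mem_nhds (closedBall_mem_nhds x hε)
    filter_upwards [nhdsWithin_le_nhds h1] with y hy
    have h2 : x ∈ connectedComponentIn (closedBall x ε) x :=
      mem_connectedComponentIn (mem_closedBall_self hε.le)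
    have h3 := (connectedComponentIn_subset (closedBall x ε) x).trans h
    have h4 := (cc_closed (isClosed_closedBall (x := x) (ε := ε)) x).isCompact
    exact ⟨⟨_, h3, h4, isPreconnected_connectedComponentIn, h2, hy⟩,
      ⟨_, h3, h4, isPreconnected_connectedComponentIn, hy, h2⟩⟩
  · rintro a b c - - - ⟨C, h1, h2, h3, h4, h5⟩ ⟨D, k1, k2, k3, k4, k5⟩
    exact ⟨C ∪ D, union_subset h1 k1, h2.union k2, h3.union b h5 k4 k3, Or.inl h4, Or.inr k5⟩

/-- an open proper nonempty part of a preconnected set has a frontier point in it -/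
lemma exists_fr {w C : Set X} (hc : IsPreconnected w) (hC : IsOpen C) {a b : X} (ha : a ∈ w)
    (ha' : a ∈ C) (hb : b ∈ w) (hb' : b ∉ C) : ∃ q ∈ w, q ∈ frontier C := by
  by_contra h
  push Not at h
  have := hc.subset_or_subset hC isClosed_closure.isOpen_compl
    (disjoint_compl_right.mono_left subset_closure) (fun z hz => by
      by_cases k : z ∈ closure C
      · left
        by_contra k'
        exact h z hz (by rw [hC.frontier_eq]; exact ⟨k, k'⟩)
      · exact Or.inr k)
  rcases this with k | k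
  · exact hb' (k hb)
  · exact k ha (subset_closure ha')

lemma Nul.comp [LocallyConnectedSpace X] (hN : Nul X) {w J : Set X} (hw : IsOpen w)
    (hc : IsPreconnected w) (hJ : IsOpen J) {γ : X} (h1 : γ ∈ closure (w ∩ J))
    (h2 : γ ∉ closure (w ∩ frontier J)) :
    ∃ p ∈ w ∩ J, γ ∈ closure (connectedComponentIn (w ∩ J) p) := by
  by_cases hwJ : w ⊆ J
  · obtain ⟨p, hp⟩ := closure_nonempty_iff.1 ⟨γ, h1⟩
    refine ⟨p, hp, ?_⟩
    rw [inter_eq_left.2 hwJ] at h1 ⊢
    rw [hc.connectedComponentIn hp.1]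
    exact h1
  obtain ⟨b, hb, hb'⟩ := not_subset.1 hwJ
  rw [Metric.mem_closure_iff] at h2
  push Not at h2
  obtain ⟨δ, hδ, h2⟩ := h2
  have h3 : γ ∈ closure (ball γ (δ / 2) ∩ (w ∩ J)) :=
    isOpen_ball.inter_closure ⟨mem_ball_self (half_pos hδ), h1⟩
  have h0 := hN.near (half_pos hδ) (w ∩ J) _ inter_subset_right ?_ h3
  · obtain ⟨p, hp, h4⟩ := h0
    exact ⟨p, hp.2, h4⟩
  · intro p hp
    obtain ⟨q, hq, hq'⟩ := exists_fr hc ((hw.inter hJ).connectedComponentIn (x := p)) hp.2.1
      (mem_connectedComponentIn hp.2) hb (fun h => hb' (connectedComponentIn_subset _ _ h).2)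
    have h5 := fr_cc (hw.inter hJ) p hq'
    rw [(hw.inter hJ).frontier_eq] at h5
    have h6 := h2 q ⟨hq, by
      rw [hJ.frontier_eq]
      exact ⟨closure_mono inter_subset_right h5.1, fun k => h5.2 ⟨hq, k⟩⟩⟩
    refine big_of_closure (mem_connectedComponentIn hp.2) hq'.1 ?_
    have := dist_triangle_left γ q p
    have := mem_ball.1 hp.1
    linarith

end Pool.Agent.H.MP_77b145_gt
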