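import Pool.Agent.H.MP_77b145_gt.A

set_option autoImplicit false
open Set Metric Topology Filter

namespace Pool.Agent.H.MP_77b145_gt

variable {X : Type} [MetricSpace X]

structure Ker (K : Set X) : Prop where
  cpt : IsCompact K
  con : IsPreconnected K
  two : ∃ a ∈ K, ∃ b ∈ K, a ≠ b
  ult : ∀ E : Set X, (frontier E).Finite → K ⊆ closure E ∨ K ⊆ closure Eᶜ
  out : ∀ y ∉ K, ∃ V, IsOpen V ∧ y ∈ V ∧ (frontier V).Finite ∧ Disjoint V K

lemma fr_inter_fin {E F : Set X} (h1 : (frontier E).Finite) (h2 : (frontier F).Finite) :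
    (frontier (E ∩ F)).Finite :=
  (h1.union h2).subset ((frontier_inter_subset _ _).trans
    (union_subset_union inter_subset_left inter_subset_right))

lemma fr_union_fin {E F : Set X} (h1 : (frontier E).Finite) (h2 : (frontier F).Finite) :
    (frontier (E ∪ F)).Finite :=
  (h1.union h2).subset ((frontier_union_subset _ _).trans
    (union_subset_union inter_subset_left inter_subset_right))

lemma fr_sUnion_fin {T : Set (Set X)} (hT : T.Finite) (h : ∀ E ∈ T, (frontier E).Finite) :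
    (frontier (⋃₀ T)).Finite := by
  induction T, hT using Set.Finite.induction_on with
  | empty => simp
  | insert _ _ ih =>
    rw [sUnion_insert]
    exact fr_union_fin (h _ (mem_insert _ _)) (ih fun E hE => h E (mem_insert_of_mem _ hE))

lemma exists_ker [CompactSpace X] {x : X} {U : Set X} (hU : IsOpen U) (hx : x ∈ U)
    (h : ∀ V : Set X, IsOpen V → x ∈ V → V ⊆ U → ¬ (frontier V).Finite) : ∃ K : Set X, Ker K := by
  classical
  obtain ⟨ε, hε, hεU⟩ := Metric.nhds_basis_closedBall.mem_iff.1 (hU.mem_nhds hx)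
  obtain ⟨W, hW⟩ := Ultrafilter.exists_ultrafilter_of_finite_inter_nonempty
    {E : Set X | (frontier E).Finite ∧ ¬ Big ε Eᶜ} (by
      intro T hT
      by_contra hne
      have hfin : ((fun E : Set X => closure Eᶜ) '' {E | E ∈ T ∧ x ∉ closure Eᶜ}).Finite :=
        (T.finite_toSet.subset fun E hE => hE.1).image _
      refine h (⋃₀ ((fun E : Set X => closure Eᶜ) '' {E | E ∈ T ∧ x ∉ closure Eᶜ}))ᶜ ?_ ?_ ?_ ?_
      · rw [isOpen_compl_iff]
        rw [sUnion_eq_biUnion]
        refine hfin.isClosed_biUnion ?_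
        rintro _ ⟨E, -, rfl⟩
        exact isClosed_closure
      · rintro ⟨_, ⟨E, hE, rfl⟩, k⟩
        exact hE.2 k
      · intro z hz
        have : ∃ E ∈ T, z ∉ E := by
          by_contra k
          push Not at k
          exact hne ⟨z, fun E hE => k E hE⟩
        obtain ⟨E, hE, hz'⟩ := this
        have h1 : x ∈ closure Eᶜ := by
          by_contra k
          exact hz ⟨_, ⟨E, ⟨hE, k⟩, rfl⟩, subset_closure hz'⟩
        apply hεU
        by_contra k
        exact (hT hE).2 (big_of_closure hz' h1 (by simpa using k))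
      · rw [frontier_compl]
        refine fr_sUnion_fin hfin ?_
        rintro _ ⟨E, hE, rfl⟩
        refine (hT hE.1).1.subset ?_
        rw [← frontier_compl E]
        exact frontier_closure_subset)
  let I := {E : Set X // E ∈ W ∧ (frontier E).Finite}
  have : Nonempty I := ⟨⟨univ, univ_mem, by simp⟩⟩
  have hd : Directed (· ⊇ ·) (fun E : I => closure E.1) := fun E F =>
    ⟨⟨E.1 ∩ F.1, inter_mem E.2.1 F.2.1, fr_inter_fin E.2.2 F.2.2⟩,
      closure_mono inter_subset_left, closure_mono inter_subset_right⟩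
  have kc : ∀ G, IsOpen G → (⋂ E : I, closure E.1) ⊆ G → ∃ E : I, closure E.1 ⊆ G := by
    intro G hG h1
    obtain ⟨E, hE⟩ := hG.isClosed_compl.isCompact.elim_directed_family_closed
      (fun E : I => closure E.1) (fun _ => isClosed_closure)
      (eq_empty_of_forall_notMem fun z hz => hz.1 (h1 hz.2)) hd
    refine ⟨E, fun z hz => by_contra fun k => ?_⟩
    have : z ∈ (∅ : Set X) := by rw [← hE]; exact ⟨k, hz⟩
    exact this
  refine ⟨⋂ E : I, closure E.1, (isClosed_iInter fun _ => isClosed_closure).isCompact, ?_, ?_, ?_,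
    ?_⟩
  · rw [isPreconnected_iff_subset_of_fully_disjoint_closed
      (isClosed_iInter fun _ => isClosed_closure)]
    intro u v hu hv h1 h2
    obtain ⟨G1, G2, k1, k2, k3, k4, k5⟩ := normal_separation hu hv h2
    obtain ⟨E, hE⟩ := kc _ (k1.union k2) (h1.trans (union_subset_union k3 k4))
    have aux : ∀ G1 G2 u v : Set X, IsOpen G1 → IsOpen G2 → v ⊆ G2 → Disjoint G1 G2 →
        closure E.1 ⊆ G1 ∪ G2 → (⋂ E : I, closure E.1) ⊆ u ∪ v → E.1 ∩ G1 ∈ W →
        (⋂ E : I, closure E.1) ⊆ u := by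
      intro G1 G2 u v k1 k2 k4 k5 hE h1 hm z hz
      have hf : (frontier (E.1 ∩ G1)).Finite := by
        refine E.2.2.subset fun y hy => ?_
        have hy1 : y ∈ closure E.1 := closure_mono inter_subset_left hy.1
        have hy2 : y ∈ G1 := (hE hy1).resolve_right fun k =>
          (k5.closure_left k2).notMem_of_mem_left (closure_mono inter_subset_right hy.1) k
        refine ⟨hy1, fun k => hy.2 ?_⟩
        rw [interior_inter, k1.interior_eq]
        exact ⟨k, hy2⟩
      have := mem_iInter.1 hz ⟨_, hm, hf⟩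
      exact (h1 hz).resolve_right fun k =>
        (k5.closure_left k2).notMem_of_mem_left (closure_mono inter_subset_right this) (k4 k)
    have : E.1 ∩ G1 ∪ E.1 ∩ G2 ∈ W := by
      refine mem_of_superset E.2.1 fun z hz => ?_
      exact (hE (subset_closure hz)).imp (fun k => ⟨hz, k⟩) (fun k => ⟨hz, k⟩)
    rcases Ultrafilter.union_mem_iff.1 this with k | k
    · exact Or.inl (aux G1 G2 u v k1 k2 k4 k5 hE h1 k)
    · exact Or.inr (aux G2 G1 v u k2 k1 k3 k5.symm (by rwa [union_comm]) (by rwa [union_comm]) k)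
  · by_contra k
    push Not at k
    have : ∃ c, (⋂ E : I, closure E.1) ⊆ ball c (ε / 2) := by
      rcases (⋂ E : I, closure E.1).eq_empty_or_nonempty with e | ⟨c, hc⟩
      · exact ⟨x, by rw [e]; exact empty_subset _⟩
      · exact ⟨c, fun z hz => by rw [k z hz c hc]; exact mem_ball_self (half_pos hε)⟩
    obtain ⟨c, hc⟩ := this
    obtain ⟨E, hE⟩ := kc _ isOpen_ball hc
    have h1 : E.1ᶜ ∈ W := hW ⟨by rw [frontier_compl]; exact E.2.2, by
      rw [compl_compl]
      rintro ⟨a, ha, b, hb, l⟩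
      have := mem_ball.1 (hE (subset_closure ha))
      have := mem_ball.1 (hE (subset_closure hb))
      have := dist_triangle_right a b c
      linarith⟩
    exact (Ultrafilter.compl_mem_iff_notMem.1 h1) E.2.1
  · intro E hE
    rcases W.mem_or_compl_mem E with k | k
    · exact Or.inl (iInter_subset (fun E : I => closure E.1) ⟨E, k, hE⟩)
    · exact Or.inr (iInter_subset (fun E : I => closure E.1) ⟨Eᶜ, k, by rwa [frontier_compl]⟩)
  · intro y hy
    rw [mem_iInter] at hy
    push Not at hy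
    obtain ⟨E, hE⟩ := hy
    refine ⟨(closure E.1)ᶜ, isClosed_closure.isOpen_compl, hE, ?_, ?_⟩
    · rw [frontier_compl]
      exact E.2.2.subset frontier_closure_subset
    · exact disjoint_compl_left.mono_right (iInter_subset (fun E : I => closure E.1) E)

lemma Ker.unc {K : Set X} (hK : Ker K) {U : Set X} (hU : IsOpen U) {y : X} (hy : y ∈ K)
    (hyU : y ∈ U) : ¬ (K ∩ U).Countable := by
  intro hc
  obtain ⟨z, hz, hne⟩ : ∃ z ∈ K, z ≠ y := by
    obtain ⟨a, ha, b, hb, h⟩ := hK.two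
    by_cases k : a = y
    · exact ⟨b, hb, fun e => h (k.trans e.symm)⟩
    · exact ⟨a, ha, k⟩
  obtain ⟨ε, hε, h⟩ := Metric.isOpen_iff.1 hU y hyU
  have h1 := hK.con.intermediate_value hy hz (f := fun t => dist t y) (by fun_prop)
  have hd : 0 < dist z y := dist_pos.2 hne
  have h2 : Ioo 0 (min ε (dist z y)) ⊆ (fun t => dist t y) '' (K ∩ U) := by
    intro t ht
    obtain ⟨q, hq, e⟩ := h1 (a := t) ⟨by simpa using ht.1.le, (ht.2.trans_le (min_le_right _ _)).le⟩
    exact ⟨q, ⟨hq, h (by rw [mem_ball]; simp only at e; rw [e]; exact ht.2.trans_le (min_le_left _ _))⟩, e⟩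
  have h3 := (hc.image _).mono h2
  have h4 := Cardinal.mk_Ioo_real (lt_min hε hd)
  rw [← Cardinal.le_aleph0_iff_set_countable, h4] at h3
  exact absurd h3 (not_le.2 Cardinal.aleph0_lt_continuum)

lemma Ker.inf {K : Set X} (hK : Ker K) {U : Set X} (hU : IsOpen U) {y : X} (hy : y ∈ K)
    (hyU : y ∈ U) : (K ∩ U).Infinite := fun h => hK.unc hU hy hyU h.countable

def VV (K V : Set X) : Prop := IsOpen V ∧ (frontier V).Finite ∧ Disjoint V K

lemma Ker.cov {K : Set X} (hK : Ker K) {C : Set X} (hC : IsCompact C) (h : Disjoint C K) :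
    ∃ V, VV K V ∧ C ⊆ V := by
  refine hC.induction_on (p := fun C => ∃ V, VV K V ∧ C ⊆ V) ?_ ?_ ?_ ?_
  · exact ⟨∅, ⟨isOpen_empty, by simp, by simp⟩, subset_rfl⟩
  · rintro s t hst ⟨V, h1, h2⟩
    exact ⟨V, h1, hst.trans h2⟩
  · rintro s t ⟨V, h1, h2⟩ ⟨W, k1, k2⟩
    exact ⟨V ∪ W, ⟨h1.1.union k1.1, fr_union_fin h1.2.1 k1.2.1, h1.2.2.union_left k1.2.2⟩,
      union_subset_union h2 k2⟩
  · intro x hx
    obtain ⟨V, h1, h2, h3, h4⟩ := hK.out x (h.notMem_of_mem_left hx)
    exact ⟨V, nhdsWithin_le_nhds (h1.mem_nhds h2), V, ⟨h1, h3, h4⟩, subset_rfl⟩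

def Rl (K P N : Set X) : Prop :=
  ∃ E : Set X, (frontier E ∩ N).Finite ∧ ∀ z ∈ K, z ∈ N → (z ∈ E ↔ z ∈ P)

def nT (K P : Set X) (x : X) : Prop := ∃ N, IsOpen N ∧ x ∈ N ∧ Rl K P N

lemma Rl.mono {K P N M : Set X} (h : Rl K P N) (hM : M ⊆ N) : Rl K P M := by
  obtain ⟨E, h1, h2⟩ := h
  exact ⟨E, h1.subset (inter_subset_inter_right _ hM), fun z hz k => h2 z hz (hM k)⟩

lemma Rl.compl {K P N : Set X} (h : Rl K P N) : Rl K Pᶜ N := by
  obtain ⟨E, h1, h2⟩ := h
  exact ⟨Eᶜ, by rwa [frontier_compl], fun z hz k => not_congr (h2 z hz k)⟩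

lemma Rl.inter {K P Q N : Set X} (h : Rl K P N) (k : Rl K Q N) : Rl K (P ∩ Q) N := by
  obtain ⟨E, h1, h2⟩ := h
  obtain ⟨F, k1, k2⟩ := k
  refine ⟨E ∩ F, (h1.union k1).subset fun z hz => ?_,
    fun z hz l => and_congr (h2 z hz l) (k2 z hz l)⟩
  exact (frontier_inter_subset _ _ hz.1).imp (fun l => ⟨l.1, hz.2⟩) (fun l => ⟨l.2, hz.2⟩)

lemma nT.compl {K P : Set X} {x : X} (h : nT K P x) : nT K Pᶜ x := by
  obtain ⟨N, h1, h2, h3⟩ := h
  exact ⟨N, h1, h2, h3.compl⟩

lemma nT.inter {K P Q : Set X} {x : X} (h : nT K P x) (k : nT K Q x) : nT K (P ∩ Q) x := by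
  obtain ⟨N, h1, h2, h3⟩ := h
  obtain ⟨M, k1, k2, k3⟩ := k
  exact ⟨N ∩ M, h1.inter k1, ⟨h2, k2⟩,
    (h3.mono inter_subset_left).inter (k3.mono inter_subset_right)⟩

lemma nT.diff {K P Q : Set X} {x : X} (h : nT K P x) (k : nT K Q x) : nT K (P \ Q) x :=
  h.inter k.compl

lemma nT.union {K P Q : Set X} {x : X} (h : nT K P x) (k : nT K Q x) : nT K (P ∪ Q) x := by
  have := (h.compl.inter k.compl).compl
  rwa [← compl_union, compl_compl] at this

lemma nT.sd {K P Q : Set X} {x : X} (h : nT K P x) (k : nT K Q x) : nT K (symmDiff P Q) x :=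
  (h.diff k).union (k.diff h)

lemma fr_single (x : X) : frontier ({x} : Set X) ⊆ {x} :=
  isClosed_singleton.frontier_subset

/-- agreement off one point is enough -/
lemma nT.congr {K P Q M : Set X} {x : X} (h : nT K P x) (hM : IsOpen M) (hx : x ∈ M)
    (e : ∀ z ∈ K, z ∈ M → z ≠ x → (z ∈ P ↔ z ∈ Q)) : nT K Q x := by
  obtain ⟨N, h1, h2, E, h3, h4⟩ := h
  refine ⟨N ∩ M, h1.inter hM, ⟨h2, hx⟩, (E ∩ {x}ᶜ) ∪ ({x} ∩ Q), ?_, ?_⟩
  · refine (h3.union (finite_singleton x)).subset fun z hz => ?_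
    rcases frontier_union_subset _ _ hz.1 with k | k
    · rcases frontier_inter_subset _ _ k.1 with l | l
      · exact Or.inl ⟨l.1, hz.2.1⟩
      · rw [frontier_compl] at l
        exact Or.inr (fr_single x l.2)
    · exact Or.inr ((isClosed_singleton.closure_subset_iff.2 inter_subset_left) k.2.1)
  · intro z hz k
    by_cases l : z = x
    · subst l; simp
    · have := h4 z hz k.1
      have := e z hz k.2 l
      simp only [mem_union, mem_inter_iff, mem_compl_iff, mem_singleton_iff]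
      tauto

lemma nT_empty (K : Set X) (x : X) : nT K ∅ x :=
  ⟨univ, isOpen_univ, mem_univ _, ∅, by simp, fun _ _ _ => Iff.rfl⟩

lemma nT_univ (K : Set X) (x : X) : nT K univ x := by
  have := (nT_empty K x).compl
  rwa [compl_empty] at this

lemma nT.isOpen (K P : Set X) : IsOpen {x | nT K P x} := by
  rw [isOpen_iff_forall_mem_open]
  rintro x ⟨N, h1, h2, h3⟩
  exact ⟨N, fun z hz => ⟨N, h1, hz, h3⟩, h1, h2⟩

def bd (K P : Set X) : Set X := closure (K ∩ P) ∩ closure (K \ P)

lemma nT_of_bd {K P : Set X} {x : X} (h : x ∉ bd K P) : nT K P x := by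
  rcases not_and_or.1 h with k | k
  · refine (nT_empty K x).congr isClosed_closure.isOpen_compl k fun z hz l _ => ?_
    exact ⟨False.elim, fun m => l (subset_closure ⟨hz, m⟩)⟩
  · refine (nT_univ K x).congr isClosed_closure.isOpen_compl k fun z hz l _ => ?_
    exact ⟨fun _ => by_contra fun m => l (subset_closure ⟨hz, m⟩), fun _ => mem_univ _⟩

lemma mem_fr_congr {E F M : Set X} (hM : IsOpen M) {w : X} (hw : w ∈ M)
    (e : ∀ z ∈ M, z ∈ E ↔ z ∈ F) (h : w ∈ frontier E) : w ∈ frontier F := by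
  have h1 : w ∈ frontier (E ∩ M) ∩ M := by
    rw [frontier_inter_open_inter hM]; exact ⟨h, hw⟩
  have h2 : E ∩ M = F ∩ M := by
    ext z; exact ⟨fun k => ⟨(e z k.2).1 k.1, k.2⟩, fun k => ⟨(e z k.2).2 k.1, k.2⟩⟩
  rw [h2, frontier_inter_open_inter hM] at h1
  exact h1.1

lemma Ker.patch [CompactSpace X] {K P L : Set X} (hK : Ker K) (hL : IsCompact L)
    (h : ∀ x ∈ L, nT K P x) : ∃ O, IsOpen O ∧ L ⊆ O ∧ Rl K P O := by
  suffices ∃ O, IsOpen O ∧ closure L ⊆ O ∧ Rl K P O by
    obtain ⟨O, h1, h2, h3⟩ := this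
    exact ⟨O, h1, subset_closure.trans h2, h3⟩
  refine hL.induction_on (p := fun L => ∃ O, IsOpen O ∧ closure L ⊆ O ∧ Rl K P O) ?_ ?_ ?_ ?_
  · exact ⟨∅, isOpen_empty, by simp, ∅, by simp, fun _ _ k => k.elim⟩
  · rintro s t hst ⟨V, h1, h2, h3⟩
    exact ⟨V, h1, (closure_mono hst).trans h2, h3⟩
  · rintro s t ⟨O1, h1, h2, E1, h3, h4⟩ ⟨O2, k1, k2, E2, k3, k4⟩
    have hF : (frontier (symmDiff E1 E2) ∩ (O1 ∩ O2)).Finite := by
      refine (h3.union k3).subset fun z hz => ?_
      rcases frontier_union_subset _ _ hz.1 with l | l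
      · rcases frontier_inter_subset E1 E2ᶜ l.1 with m | m
        · exact Or.inl ⟨m.1, hz.2.1⟩
        · rw [frontier_compl] at m
          exact Or.inr ⟨m.2, hz.2.2⟩
      · rcases frontier_inter_subset E2 E1ᶜ l.2 with m | m
        · exact Or.inr ⟨m.1, hz.2.2⟩
        · rw [frontier_compl] at m
          exact Or.inl ⟨m.2, hz.2.1⟩
    obtain ⟨A, a1, a2, a3⟩ := normal_exists_closure_subset (isClosed_closure.union hF.isClosed) h1
      (union_subset h2 fun z hz => hz.2.1)
    obtain ⟨B, b1, b2, b3⟩ := normal_exists_closure_subset isClosed_closure k1 k2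
    obtain ⟨V, hV, hV'⟩ := hK.cov (C := frontier A ∩ closure B ∩ closure (symmDiff E1 E2))
      ((isClosed_frontier.inter isClosed_closure).inter isClosed_closure).isCompact (by
        rw [Set.disjoint_left]
        intro z hz hzK
        have z1 := a3 hz.1.1.1
        have z2 := b3 hz.1.2
        rw [a1.frontier_eq] at hz
        refine hz.1.1.2 (a2 (Or.inr ⟨⟨hz.2, fun k => ?_⟩, z1, z2⟩))
        have := interior_subset k
        have := h4 z hzK z1
        have := k4 z hzK z2
        rw [mem_symmDiff] at *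
        tauto)
    refine ⟨A ∪ B, a1.union b1, ?_, ((E1 ∩ A) ∪ (E2 \ A)) ∩ Vᶜ, ?_, ?_⟩
    · rw [closure_union]
      exact union_subset_union (subset_union_left.trans a2) b2
    · refine ((h3.union k3).union hV.2.1).subset fun w hw => ?_
      by_cases hwV : w ∈ V
      · exact absurd hwV (hV.1.isClosed_compl.closure_subset_iff.2 inter_subset_right hw.1.1)
      rcases frontier_inter_subset _ _ hw.1 with l | l
      · left
        by_cases c1 : w ∈ A
        · exact Or.inl ⟨mem_fr_congr a1 c1 (fun z hz => by simp [hz]) l.1, a3 (subset_closure c1)⟩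
        have c2 : w ∈ B := hw.2.resolve_left c1
        by_cases c3 : w ∈ closure A
        · refine Or.inl ⟨mem_fr_congr isClosed_closure.isOpen_compl
            (M := (closure (symmDiff E1 E2))ᶜ) (fun k => hwV (hV' ⟨⟨?_, subset_closure c2⟩, k⟩))
            (fun z hz => ?_) l.1, a3 c3⟩
          · rw [a1.frontier_eq]; exact ⟨c3, c1⟩
          · have : z ∉ symmDiff E1 E2 := fun k => hz (subset_closure k)
            rw [mem_symmDiff] at this
            simp only [mem_union, mem_inter_iff, mem_diff]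
            tauto
        · refine Or.inr ⟨mem_fr_congr isClosed_closure.isOpen_compl c3 (fun z hz => ?_) l.1,
            b3 (subset_closure c2)⟩
          have : z ∉ A := fun k => hz (subset_closure k)
          simp [this]
      · rw [frontier_compl] at l
        exact Or.inr l.2
    · intro z hz k
      have c0 : z ∉ V := hV.2.2.notMem_of_mem_right hz
      by_cases c1 : z ∈ A
      · have := h4 z hz (a3 (subset_closure c1))
        simp [c0, c1, this]
      · have := k4 z hz (b3 (subset_closure (k.resolve_left c1)))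
        simp [c0, c1, this]
  · intro x hx
    obtain ⟨N, h1, h2, h3⟩ := h x hx
    obtain ⟨t, t1, t2, t3⟩ := exists_mem_nhds_isClosed_subset (h1.mem_nhds h2)
    exact ⟨t, nhdsWithin_le_nhds t1, N, h1, by rwa [t2.closure_eq], h3⟩

lemma Ker.glob [CompactSpace X] {K P : Set X} (hK : Ker K) (h : ∀ x, nT K P x) :
    (K ∩ P).Finite ∨ (K \ P).Finite := by
  obtain ⟨O, -, h2, E, h3, h4⟩ := hK.patch isCompact_univ fun x _ => h x
  have h5 : (frontier E).Finite := h3.subset fun z hz => ⟨hz, h2 (mem_univ _)⟩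
  rcases hK.ult E h5 with k | k
  · right
    refine h5.subset fun z hz => ⟨k hz.1, fun l => hz.2 ?_⟩
    exact (h4 z hz.1 (h2 (mem_univ _))).1 (interior_subset l)
  · left
    rw [← frontier_compl] at h5
    refine h5.subset fun z hz => ⟨k hz.1, fun l => interior_subset l ?_⟩
    exact (h4 z hz.1 (h2 (mem_univ _))).2 hz.2

end Pool.Agent.H.MP_77b145_gt
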