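import Pool.Agent.H.MP_77b145_gt.B

set_option autoImplicit false
open Set Metric Topology Filter

namespace Pool.Agent.H.MP_77b145_gt

variable {X : Type} [MetricSpace X]

lemma cutc {Z P Q : Set X} {y : X} (hZ : IsPreconnected Z) (hP : IsClosed P) (hQ : IsClosed Q)
    (h1 : Z ⊆ P ∪ Q) (h2 : P ∩ Q = {y}) (hy : y ∈ Z) : IsPreconnected (Z ∩ Q) := by
  have yPQ : y ∈ P ∩ Q := by rw [h2]; rfl
  have aux : ∀ t t' : Set X, IsClosed t → IsClosed t' → Z ∩ Q ⊆ t ∪ t' → y ∈ t →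
      (Z ∩ Q ∩ t').Nonempty → (Z ∩ Q ∩ (t ∩ t')).Nonempty := by
    intro t t' ht ht' k1 k2 k3
    obtain ⟨z, z1, z2, z3⟩ := isPreconnected_closed_iff.1 hZ ((Q ∩ t) ∪ P) (Q ∩ t')
      ((hQ.inter ht).union hP) (hQ.inter ht') (fun z hz => by
        rcases h1 hz with k | k
        · exact Or.inl (Or.inr k)
        · exact (k1 ⟨hz, k⟩).imp (fun l => Or.inl ⟨k, l⟩) (fun l => ⟨k, l⟩))
      ⟨y, hy, Or.inr yPQ.1⟩ (by obtain ⟨z, l1, l2⟩ := k3; exact ⟨z, l1.1, l1.2, l2⟩)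
    refine ⟨z, ⟨z1, z3.1⟩, ?_, z3.2⟩
    rcases z2 with k | k
    · exact k.2
    · have : z ∈ ({y} : Set X) := by rw [← h2]; exact ⟨k, z3.1⟩
      rw [this]; exact k2
  rw [isPreconnected_closed_iff]
  intro t t' ht ht' k1 k2 k3
  rcases k1 ⟨hy, yPQ.2⟩ with k | k
  · exact aux t t' ht ht' k1 k k3
  · rw [inter_comm t]
    exact aux t' t ht' ht (by rwa [union_comm]) k k2

def Ct (N Γ : Set X) (y : X) : Prop :=
  ∃ P Q : Set X, IsClosed P ∧ IsClosed Q ∧ P ∪ Q = N ∧ P ∩ Q = {y} ∧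
    y ∈ closure ((P ∩ Γ) \ {y}) ∧ y ∈ closure ((Q ∩ Γ) \ {y})

structure Dt (N Γ : Set X) (p : X) where
  y : X
  P : Set X
  Q : Set X
  hy : y ∈ Γ
  cP : IsClosed P
  cQ : IsClosed Q
  un : P ∪ Q = N
  int : P ∩ Q = {y}
  hp : p ∈ P
  ne : (Γ ∩ Pᶜ).Nonempty

lemma Nul.cut [CompactSpace X] (hN : Nul X) {N Γ : Set X} (hc : IsPreconnected N)
    (hΓ : IsClosed Γ) (hne : Γ.Nonempty) (hΓN : Γ ⊆ N) {p : X} (hp : p ∈ N) (hp' : p ∉ Γ)
    (hY : ∀ W, IsOpen W → (Γ ∩ W).Nonempty → ∃ y ∈ Γ ∩ W, Ct N Γ y) :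
    ∃ y ∈ Γ, ∀ ε > 0, ∃ D, IsPreconnected D ∧ D ⊆ N ∩ ball y ε ∧ y ∉ D ∧
      ∃ η > 0, Γ ∩ ball y η ⊆ D ∪ {y} := by
  classical
  have hY' : ∀ W, IsOpen W → (Γ ∩ W).Nonempty → ∃ d : Dt N Γ p, d.y ∈ W := by
    intro W hW k
    obtain ⟨y, hy, P, Q, h1, h2, h3, h4, h5, h6⟩ := hY W hW k
    have aux : ∀ P Q : Set X, P ∩ Q = {y} → y ∈ closure ((Q ∩ Γ) \ {y}) → (Γ ∩ Pᶜ).Nonempty := by
      intro P Q h4 h6
      obtain ⟨z, hz⟩ := closure_nonempty_iff.1 ⟨y, h6⟩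
      exact ⟨z, hz.1.2, fun l => hz.2 (by rw [← h4]; exact ⟨l, hz.1.1⟩)⟩
    rw [← h3] at hp
    rcases hp with l | l
    · exact ⟨⟨y, P, Q, hy.1, h1, h2, h3, h4, l, aux P Q h4 h6⟩, hy.2⟩
    · exact ⟨⟨y, Q, P, hy.1, h2, h1, by rw [union_comm, h3], by rw [inter_comm, h4], l,
        aux Q P (by rw [inter_comm, h4]) h5⟩, hy.2⟩
  obtain ⟨b, hb, -, hb'⟩ := TopologicalSpace.exists_countable_basis X
  obtain ⟨O, hO⟩ := (hb.insert ∅).exists_eq_range (insert_nonempty _ _)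
  have hOo : ∀ k, IsOpen (O k) := by
    intro k
    have : O k ∈ insert ∅ b := by rw [hO]; exact mem_range_self k
    rcases this with l | l
    · rw [l]; exact isOpen_empty
    · exact hb'.isOpen l
  have nx : ∀ (k : ℕ) (d : Dt N Γ p), ∃ d' : Dt N Γ p, d'.y ∉ d.P ∧
      ((Γ ∩ (O k ∩ d.Pᶜ)).Nonempty → d'.y ∈ O k) := by
    intro k d
    by_cases h : (Γ ∩ (O k ∩ d.Pᶜ)).Nonempty
    · obtain ⟨d', hd⟩ := hY' _ ((hOo k).inter d.cP.isOpen_compl) h
      exact ⟨d', hd.2, fun _ => hd.1⟩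
    · obtain ⟨d', hd⟩ := hY' _ d.cP.isOpen_compl d.ne
      exact ⟨d', hd, fun k => absurd k h⟩
  choose f hf1 hf2 using nx
  obtain ⟨d0, -⟩ := hY' univ isOpen_univ (by rwa [inter_univ])
  let d : ℕ → Dt N Γ p := fun n => Nat.rec d0 f n
  have hd : ∀ n, d (n + 1) = f n (d n) := fun n => rfl
  have ym : ∀ n, (d n).y ∈ (d n).P ∩ (d n).Q := fun n => by rw [(d n).int]; rfl
  have PN : ∀ n, (d n).P ⊆ N := fun n => subset_union_left.trans (d n).un.subset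
  have QN : ∀ n, (d n).Q ⊆ N := fun n => subset_union_right.trans (d n).un.subset
  have tot : ∀ n, ∀ z ∈ N, z ∈ (d n).P ∨ z ∈ (d n).Q := fun n z hz => (d n).un.symm.subset hz
  have sing : ∀ n z, z ∈ (d n).P → z ∈ (d n).Q → z = (d n).y := fun n z h1 h2 => by
    have : z ∈ ({(d n).y} : Set X) := by rw [← (d n).int]; exact ⟨h1, h2⟩
    exact this
  have Pc : ∀ n, IsPreconnected (d n).P := fun n => by
    have := cutc hc (d n).cQ (d n).cP (by rw [union_comm, (d n).un])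
      (by rw [inter_comm, (d n).int]) (hΓN (d n).hy)
    rwa [inter_eq_right.2 (PN n)] at this
  have Qc : ∀ n, IsPreconnected (d n).Q := fun n => by
    have := cutc hc (d n).cP (d n).cQ (by rw [(d n).un]) (d n).int (hΓN (d n).hy)
    rwa [inter_eq_right.2 (QN n)] at this
  have Pm1 : ∀ n, (d n).P ⊆ (d (n + 1)).P := fun n => by
    have := isPreconnected_iff_subset_of_disjoint_closed.1 (Pc n) _ _ (d (n + 1)).cP (d (n + 1)).cQ
      (fun z hz => tot (n + 1) z (PN n hz)) (by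
        rw [(d (n + 1)).int]
        exact eq_empty_of_forall_notMem fun z hz => hf1 n (d n) (by
          have e : z = (f n (d n)).y := hz.2
          rw [← e]; exact hz.1))
    refine this.resolve_right fun k => hp' ?_
    rw [sing (n + 1) p (d (n + 1)).hp (k (d n).hp)]
    exact (d (n + 1)).hy
  have dj1 : ∀ n, ∀ z ∈ (d (n + 1)).Q, z ∉ (d n).P := fun n z hz k => hf1 n (d n) (by
    have e := sing (n + 1) z (Pm1 n k) hz
    rw [← hd, ← e]; exact k)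
  have Qm1 : ∀ n, (d (n + 1)).Q ⊆ (d n).Q := fun n z hz =>
    (tot n z (QN (n + 1) hz)).resolve_left (dj1 n z hz)
  have Pm : Monotone fun n => (d n).P := monotone_nat_of_le_succ Pm1
  have Qm : Antitone fun n => (d n).Q := antitone_nat_of_succ_le Qm1
  have Bc : ∀ k l, k ≤ l → IsPreconnected ((d k).Q ∩ (d l).P) := fun k l h =>
    cutc (Qc k) (d l).cQ (d l).cP (fun z hz => (tot l z (QN k hz)).symm)
      (by rw [inter_comm, (d l).int]) (Qm h (ym l).2)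
  obtain ⟨y, hy⟩ := IsCompact.nonempty_iInter_of_sequence_nonempty_isCompact_isClosed
    (fun n => Γ ∩ (d n).Q) (fun n => inter_subset_inter_right _ (Qm1 n))
    (fun n => ⟨_, (d n).hy, (ym n).2⟩) (hΓ.inter (d 0).cQ).isCompact
    (fun n => hΓ.inter (d n).cQ)
  let D : ℕ → Set X := fun k => ⋃ l, ((d k).Q ∩ (d (k + l)).P)
  have Dc : ∀ k, IsPreconnected (D k) := fun k =>
    isPreconnected_iUnion ⟨(d k).y, mem_iInter.2 fun l =>
      ⟨(ym k).2, Pm (Nat.le_add_right k l) (ym k).1⟩⟩ fun l => Bc _ _ (Nat.le_add_right k l)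
  have Ds : ∀ δ > 0, ∃ k, ¬ Big δ (D k) := by
    intro δ hδ
    by_contra h
    push Not at h
    have : ∀ k, ∃ l, k ≤ l ∧ Big δ ((d k).Q ∩ (d l).P) := by
      intro k
      obtain ⟨a, ha, c, hc, e⟩ := h k
      obtain ⟨i, hi⟩ := mem_iUnion.1 ha
      obtain ⟨j, hj⟩ := mem_iUnion.1 hc
      exact ⟨k + i + j, by omega, a, ⟨hi.1, Pm (by omega) hi.2⟩, c, ⟨hj.1, Pm (by omega) hj.2⟩, e⟩
    choose l hl1 hl2 using this
    let s : ℕ → ℕ := fun n => Nat.rec 0 (fun _ k => l k + 1) n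
    have hs : ∀ n, s (n + 1) = l (s n) + 1 := fun n => rfl
    refine hN.nest hδ (fun n => (d (s n)).Q) (fun n => (d (s n)).Q ∩ (d (l (s n))).P) ?_
      (fun n => inter_subset_left) ?_ (fun n => Bc _ _ (hl1 _)) (fun n => hl2 _)
    · intro n
      exact Qm (show s n ≤ s (n + 1) by rw [hs]; have := hl1 (s n); omega)
    · intro n
      rw [Set.disjoint_left]
      intro z h1 h2
      exact dj1 _ z h2 h1.2
  have inD : ∀ k, ∀ z ∈ Γ, z ∉ (d k).P → z ∉ (⋂ n, Γ ∩ (d n).Q) → z ∈ D k := by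
    intro k z h1 h2 h3
    rw [mem_iInter] at h3
    push Not at h3
    obtain ⟨n, hn⟩ := h3
    refine mem_iUnion.2 ⟨n, (tot k z (hΓN h1)).resolve_left h2, ?_⟩
    exact Pm (Nat.le_add_left n k) ((tot n z (hΓN h1)).resolve_right fun l => hn ⟨h1, l⟩)
  have nP : ∀ z ∈ ⋂ n, Γ ∩ (d n).Q, ∀ k, z ∉ (d k).P := fun z hz k =>
    dj1 k z (mem_iInter.1 hz (k + 1)).2
  have Mcl : ∀ z ∈ ⋂ n, Γ ∩ (d n).Q, ∀ k, z ∈ closure (D k) := by
    intro z hz k
    rw [_root_.mem_closure_iff]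
    intro o ho hzo
    obtain ⟨v, v1, v2, v3⟩ := hb'.exists_subset_of_mem_open (u := o ∩ (d k).Pᶜ) ⟨hzo, nP z hz k⟩
      (ho.inter (d k).cP.isOpen_compl)
    have : v ∈ range O := by rw [← hO]; exact mem_insert_of_mem _ v1
    obtain ⟨j, rfl⟩ := this
    have h1 := hf2 j (d j) ⟨z, (mem_iInter.1 hz 0).1, v2, nP z hz j⟩
    rw [← hd] at h1
    exact ⟨_, (v3 h1).1, inD k _ (d (j + 1)).hy (v3 h1).2 fun l => nP _ l (j + 1) (ym (j + 1)).1⟩
  have cl : ∀ δ k, ¬ Big δ (D k) → ∀ z ∈ ⋂ n, Γ ∩ (d n).Q, ∀ a ∈ D k, dist a z ≤ δ := by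
    intro δ k h z hz a ha
    by_contra l
    exact h (big_of_closure ha (Mcl z hz k) (not_le.1 l))
  have Ms : ∀ z ∈ ⋂ n, Γ ∩ (d n).Q, z = y := by
    intro z hz
    by_contra e
    have hd : 0 < dist z y := dist_pos.2 e
    obtain ⟨k, hk⟩ := Ds (dist z y / 3) (by linarith)
    obtain ⟨a, ha⟩ := closure_nonempty_iff.1 ⟨z, Mcl z hz k⟩
    have := cl _ k hk z hz a ha
    have := cl _ k hk y hy a ha
    have := dist_triangle_left z y a
    linarith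
  refine ⟨y, (mem_iInter.1 hy 0).1, fun ε hε => ?_⟩
  obtain ⟨k, hk⟩ := Ds (ε / 2) (half_pos hε)
  refine ⟨D k, Dc k, fun a ha => ⟨?_, ?_⟩, fun h => ?_, ?_⟩
  · obtain ⟨i, hi⟩ := mem_iUnion.1 ha
    exact QN k hi.1
  · have := cl _ k hk y hy a ha
    rw [mem_ball]; linarith
  · obtain ⟨i, hi⟩ := mem_iUnion.1 h
    exact nP y hy _ hi.2
  · obtain ⟨η, hη, h⟩ := Metric.isOpen_iff.1 (d k).cP.isOpen_compl y (nP y hy k)
    refine ⟨η, hη, fun z hz => ?_⟩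
    by_cases l : z ∈ ⋂ n, Γ ∩ (d n).Q
    · exact Or.inr (Ms z l)
    · exact Or.inl (inD k z hz.1 (h hz.2) l)

lemma rayseq [CompactSpace X] [LocallyConnectedSpace X] (w : ℕ → Set X) {y : X}
    (h1 : ∀ k, IsOpen (w k)) (h2 : ∀ k, IsPreconnected (w k)) (h3 : ∀ k, (w k).Nonempty)
    (h4 : ∀ k, w (k + 1) ⊆ w k) (h5 : ∀ ε > 0, ∃ k, w k ⊆ ball y ε) (h6 : y ∉ w 0) :
    ∃ A, IsClosed A ∧ IsPreconnected A ∧ y ∈ A ∧ A ⊆ w 0 ∪ {y} ∧ (A ∩ w 0).Nonempty ∧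
      ∀ k, ∃ N, IsOpen N ∧ y ∈ N ∧ A ∩ N ⊆ w k ∪ {y} := by
  choose h hh using h3
  have hm : Antitone w := antitone_nat_of_succ_le h4
  have := fun k => join (h1 k) (h2 k) (hh k) (h4 k (hh (k + 1)))
  choose C c1 c2 c3 c4 c5 using this
  have fin : ∀ k, IsClosed (⋃ j ∈ {j | j < k}, C j) := fun k =>
    (finite_lt_nat k).isClosed_biUnion fun j _ => (c2 j).isClosed
  have spl : ∀ k, ∀ z ∈ ⋃ j, C j, z ∈ (⋃ j ∈ {j | j < k}, C j) ∨ z ∈ w k := by
    intro k z hz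
    obtain ⟨j, hj⟩ := mem_iUnion.1 hz
    rcases lt_or_ge j k with l | l
    · exact Or.inl (mem_biUnion l hj)
    · exact Or.inr (hm l (c1 j hj))
  have hU : IsPreconnected (⋃ j, C j) :=
    IsPreconnected.iUnion_of_chain c3 fun n => ⟨h (n + 1), c5 n, c4 (n + 1)⟩
  have hy : y ∈ closure (⋃ j, C j) := by
    rw [Metric.mem_closure_iff]
    intro ε hε
    obtain ⟨k, hk⟩ := h5 ε hε
    exact ⟨h k, mem_iUnion.2 ⟨k, c4 k⟩, mem_ball'.1 (hk (hh k))⟩
  refine ⟨insert y (⋃ j, C j), ?_, ?_, mem_insert _ _, ?_, ?_, ?_⟩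
  · refine isClosed_of_closure_subset fun z hz => ?_
    by_cases e : z = y
    · exact Or.inl e
    right
    obtain ⟨k, hk⟩ := h5 (dist z y / 2) (half_pos (dist_pos.2 e))
    have : closure (insert y (⋃ j, C j)) ⊆ (⋃ j ∈ {j | j < k}, C j) ∪ closedBall y (dist z y / 2) := by
      refine ((fin k).union isClosed_closedBall).closure_subset_iff.2 ?_
      rintro t (rfl | ht)
      · exact Or.inr (mem_closedBall_self (by positivity))
      · exact (spl k t ht).imp_right fun l => ball_subset_closedBall (hk l)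
    rcases this hz with l | l
    · obtain ⟨j, -, hj⟩ := mem_iUnion₂.1 l
      exact mem_iUnion.2 ⟨j, hj⟩
    · have := dist_pos.2 e
      have := mem_closedBall.1 l
      linarith
  · exact hU.subset_closure (subset_insert _ _) (insert_subset hy subset_closure)
  · rintro t (rfl | ht)
    · exact Or.inr rfl
    · exact Or.inl ((spl 0 t ht).resolve_left (by simp))
  · exact ⟨h 0, Or.inr (mem_iUnion.2 ⟨0, c4 0⟩), hh 0⟩
  · intro k
    refine ⟨_, (fin k).isOpen_compl, fun l => ?_, ?_⟩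
    · obtain ⟨j, -, hj⟩ := mem_iUnion₂.1 l
      exact h6 (hm (Nat.zero_le j) (c1 j hj))
    · rintro t ⟨rfl | ht, l⟩
      · exact Or.inr rfl
      · exact Or.inl ((spl k t ht).resolve_left l)

lemma Nul.ballseq [LocallyConnectedSpace X] (hN : Nul X) {u : Set X} (h1 : IsOpen u)
    (h2 : IsPreconnected u) {y : X} (h3 : y ∈ closure u) :
    ∃ w : ℕ → Set X, w 0 = u ∧ (∀ k, IsOpen (w k)) ∧ (∀ k, IsPreconnected (w k)) ∧
      (∀ k, (w k).Nonempty) ∧ (∀ k, w (k + 1) ⊆ w k) ∧ ∀ ε > 0, ∃ k, w k ⊆ ball y ε := by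
  have nx : ∀ (k : ℕ) (s : {s : Set X // IsOpen s ∧ IsPreconnected s ∧ y ∈ closure s}),
      ∃ t : {s : Set X // IsOpen s ∧ IsPreconnected s ∧ y ∈ closure s},
        t.1 ⊆ s.1 ∩ ball y (1 / (k + 1)) := by
    rintro k ⟨s, s1, s2, s3⟩
    have hp : (0 : ℝ) < 1 / (k + 1) := by positivity
    obtain ⟨p, -, hp'⟩ := hN.comp s1 s2 (isOpen_ball (x := y) (ε := 1 / (k + 1))) (γ := y)
      (by rw [inter_comm]; exact isOpen_ball.inter_closure ⟨mem_ball_self hp, s3⟩) (fun l => by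
        have := (isClosed_sphere.closure_subset_iff.2
          (inter_subset_right.trans frontier_ball_subset_sphere)) l
        rw [mem_sphere, dist_self] at this
        exact hp.ne this)
    exact ⟨⟨_, (s1.inter isOpen_ball).connectedComponentIn, isPreconnected_connectedComponentIn,
      hp'⟩, connectedComponentIn_subset _ _⟩
  choose f hf using nx
  let d : ℕ → {s : Set X // IsOpen s ∧ IsPreconnected s ∧ y ∈ closure s} :=
    fun n => Nat.rec ⟨u, h1, h2, h3⟩ f n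
  refine ⟨fun n => (d n).1, rfl, fun k => (d k).2.1, fun k => (d k).2.2.1,
    fun k => closure_nonempty_iff.1 ⟨y, (d k).2.2.2⟩, fun k => (hf k (d k)).trans inter_subset_left,
    fun ε hε => ?_⟩
  obtain ⟨k, hk⟩ := exists_nat_one_div_lt hε
  exact ⟨k + 1, ((hf k (d k)).trans inter_subset_right).trans (ball_subset_ball hk.le)⟩

end Pool.Agent.H.MP_77b145_gt
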