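import Pool.Agent.H.MP_77b145_gt.C

set_option autoImplicit false
open Set Metric Topology Filter

namespace Pool.Agent.H.MP_77b145_gt

variable {X : Type} [MetricSpace X]

def Gd (K E : Set X) : Prop :=
  IsClosed E ∧ (E ∩ K).Finite ∧ ∀ y ∈ K, ∀ P : Set X, y ∉ closure (bd K P \ {y}) →
    ∃ N H1 H2 : Set X, IsOpen N ∧ y ∈ N ∧ IsOpen H1 ∧ IsOpen H2 ∧ Disjoint H1 K ∧ Disjoint H2 K ∧
      E ∩ N ⊆ H1 ∪ H2 ∪ {y} ∧ frontier H1 ∩ N ⊆ (K ∩ P) ∪ {y} ∧ frontier H2 ∩ N ⊆ (K \ P) ∪ {y}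

lemma Gd.union {K E F : Set X} (h : Gd K E) (k : Gd K F) : Gd K (E ∪ F) := by
  refine ⟨h.1.union k.1, by rw [union_inter_distrib_right]; exact h.2.1.union k.2.1,
    fun y hy P hP => ?_⟩
  obtain ⟨N, H1, H2, a1, a2, a3, a4, a5, a6, a7, a8, a9⟩ := h.2.2 y hy P hP
  obtain ⟨M, G1, G2, b1, b2, b3, b4, b5, b6, b7, b8, b9⟩ := k.2.2 y hy P hP
  refine ⟨N ∩ M, H1 ∪ G1, H2 ∪ G2, a1.inter b1, ⟨a2, b2⟩, a3.union b3, a4.union b4,
    a5.union_left b5, a6.union_left b6, ?_, ?_, ?_⟩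
  · rintro z ⟨hz | hz, l⟩
    · have := a7 ⟨hz, l.1⟩
      simp only [mem_union] at this ⊢
      tauto
    · have := b7 ⟨hz, l.2⟩
      simp only [mem_union] at this ⊢
      tauto
  · intro z hz
    rcases frontier_union_subset _ _ hz.1 with l | l
    · exact a8 ⟨l.1, hz.2.1⟩
    · exact b8 ⟨l.2, hz.2.2⟩
  · intro z hz
    rcases frontier_union_subset _ _ hz.1 with l | l
    · exact a9 ⟨l.1, hz.2.1⟩
    · exact b9 ⟨l.2, hz.2.2⟩

lemma gd_off {K C : Set X} (hC : IsClosed C) (h : Disjoint C K) : Gd K C := by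
  refine ⟨hC, by rw [h.inter_eq]; exact finite_empty, fun y hy P _ => ?_⟩
  exact ⟨Cᶜ, ∅, ∅, hC.isOpen_compl, h.notMem_of_mem_right hy, isOpen_empty, isOpen_empty, by simp,
    by simp, by simp, by simp, by simp⟩

lemma gd_pt (K : Set X) (z : X) : Gd K {z} := by
  refine ⟨isClosed_singleton, (finite_singleton z).inter_of_left _, fun y _ P _ => ?_⟩
  by_cases e : y = z
  · exact ⟨univ, ∅, ∅, isOpen_univ, mem_univ _, isOpen_empty, isOpen_empty, by simp,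
      by simp, by simp [e], by simp, by simp⟩
  · exact ⟨{z}ᶜ, ∅, ∅, isOpen_compl_singleton, e, isOpen_empty, isOpen_empty, by simp,
      by simp, by simp, by simp, by simp⟩

lemma Gd.sep {K E P B U W : Set X} {x : X} (hKc : IsClosed K) (hE : Gd K E) (hx : x ∈ K)
    (hB : IsOpen B) (hxB : x ∈ B) (hU : IsOpen U) (hW : IsOpen W) (hd : Disjoint U W)
    (h1 : ∀ z ∈ B, z ∉ E → z ≠ x → z ∈ U ∨ z ∈ W)
    (h2 : ∀ z ∈ B, z ∈ K ∩ P → z ≠ x → z ∈ U) (h3 : ∀ z ∈ B, z ∈ K \ P → z ≠ x → z ∈ W) :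
    nT K P x := by
  have h0 : x ∉ closure (bd K P \ {x}) := by
    intro h
    obtain ⟨z, z1, z2, z3⟩ := _root_.mem_closure_iff.1 h B hB hxB
    have zK : z ∈ K := hKc.closure_subset_iff.2 inter_subset_left z2.1
    by_cases c : z ∈ P
    · obtain ⟨t, t1, t2⟩ := _root_.mem_closure_iff.1 z2.2 (B ∩ U ∩ {x}ᶜ)
        ((hB.inter hU).inter isOpen_compl_singleton) ⟨⟨z1, h2 z z1 ⟨zK, c⟩ z3⟩, z3⟩
      exact hd.notMem_of_mem_left t1.1.2 (h3 t t1.1.1 t2 t1.2)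
    · obtain ⟨t, t1, t2⟩ := _root_.mem_closure_iff.1 z2.1 (B ∩ W ∩ {x}ᶜ)
        ((hB.inter hW).inter isOpen_compl_singleton) ⟨⟨z1, h3 z z1 ⟨zK, c⟩ z3⟩, z3⟩
      exact hd.notMem_of_mem_right t1.1.2 (h2 t t1.1.1 t2 t1.2)
  obtain ⟨N, H1, H2, a1, a2, a3, a4, a5, a6, a7, a8, a9⟩ := hE.2.2 x hx P h0
  refine ⟨N ∩ B, a1.inter hB, ⟨a2, hxB⟩, (((U ∪ H1) \ H2) ∩ {x}ᶜ) ∪ ({x} ∩ P), ?_, ?_⟩
  · refine (finite_singleton x).subset fun w hw => by_contra fun e => ?_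
    have h4 : w ∈ frontier ((U ∪ H1) \ H2) :=
      mem_fr_congr isOpen_compl_singleton (M := {x}ᶜ) e (fun z hz => by
        have : z ≠ x := hz
        simp [this]) hw.1
    have ext : ∀ M, IsOpen M → w ∈ M → (∀ z ∈ M, z ∉ (U ∪ H1) \ H2) → False := by
      intro M m1 m2 m3
      have := mem_fr_congr (F := ∅) m1 m2 (fun z hz => ⟨m3 z hz, False.elim⟩) h4
      simp at this
    have int : ∀ M, IsOpen M → w ∈ M → (∀ z ∈ M, z ∈ (U ∪ H1) \ H2) → False := by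
      intro M m1 m2 m3
      have := mem_fr_congr (F := univ) m1 m2 (fun z hz => ⟨fun _ => mem_univ _, fun _ => m3 z hz⟩) h4
      simp at this
    have f1 : w ∈ closure H1 → w ∉ H1 → w ∈ K ∩ P := fun k l =>
      (a8 ⟨by rw [a3.frontier_eq]; exact ⟨k, l⟩, hw.2.1⟩).resolve_right e
    have f2 : w ∈ closure H2 → w ∉ H2 → w ∈ K \ P := fun k l =>
      (a9 ⟨by rw [a4.frontier_eq]; exact ⟨k, l⟩, hw.2.1⟩).resolve_right e
    have extW : w ∈ W → w ∉ closure H1 → False := fun k l =>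
      ext _ (hW.inter isClosed_closure.isOpen_compl) ⟨k, l⟩ fun z hz m =>
        m.1.elim (hd.notMem_of_mem_right hz.1) fun n => hz.2 (subset_closure n)
    by_cases c1 : w ∈ H2
    · exact ext _ a4 c1 fun z hz m => m.2 hz
    by_cases c2 : w ∈ closure H2
    · have k := f2 c2 c1
      exact extW (h3 w hw.2.2 k e) fun l => k.2 (f1 l (a5.notMem_of_mem_right k.1)).2
    by_cases c3 : w ∈ U ∪ H1
    · exact int _ ((hU.union a3).inter isClosed_closure.isOpen_compl) ⟨c3, c2⟩ fun z hz =>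
        ⟨hz.1, fun n => hz.2 (subset_closure n)⟩
    have c4 : w ∉ E := fun k => by
      rcases a7 ⟨k, hw.2.1⟩ with (l | l) | l
      · exact c3 (Or.inr l)
      · exact c1 l
      · exact e l
    refine extW ((h1 w hw.2.2 c4 e).resolve_left fun k => c3 (Or.inl k)) fun l => ?_
    exact c3 (Or.inl (h2 w hw.2.2 (f1 l fun k => c3 (Or.inr k)) e))
  · intro z hz k
    by_cases l : z = x
    · subst l; simp
    · have n1 : z ∉ H1 := a5.notMem_of_mem_right hz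
      have n2 : z ∉ H2 := a6.notMem_of_mem_right hz
      have n3 : z ∈ P → z ∈ U := fun m => h2 z k.2 ⟨hz, m⟩ l
      have n4 : z ∉ P → z ∉ U := fun m => hd.notMem_of_mem_right (h3 z k.2 ⟨hz, m⟩ l)
      simp only [mem_union, mem_inter_iff, mem_compl_iff, mem_singleton_iff, mem_diff]
      tauto

lemma goodray [CompactSpace X] [LocallyConnectedSpace X] {K R : Set X} (hR : Disjoint R K)
    (w : ℕ → Set X) {y : X} (hy : y ∈ K)
    (h1 : ∀ k, IsOpen (w k)) (h2 : ∀ k, IsPreconnected (w k)) (h3 : ∀ k, (w k).Nonempty)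
    (h4 : ∀ k, w (k + 1) ⊆ w k) (h5 : ∀ ε > 0, ∃ k, w k ⊆ ball y ε) (h6 : w 0 ⊆ R)
    (h7 : ∀ P : Set X, y ∉ closure (bd K P \ {y}) → ∃ k H N, IsOpen H ∧ Disjoint H K ∧ w k ⊆ H ∧
      IsOpen N ∧ y ∈ N ∧ (frontier H ∩ N ⊆ (K ∩ P) ∪ {y} ∨ frontier H ∩ N ⊆ (K \ P) ∪ {y})) :
    ∃ A, Gd K A ∧ IsPreconnected A ∧ y ∈ A ∧ A ⊆ R ∪ {y} ∧ (A ∩ R).Nonempty := by
  obtain ⟨A, a1, a2, a3, a4, a5, a6⟩ := rayseq w h1 h2 h3 h4 h5
    (fun k => hR.notMem_of_mem_left (h6 k) hy)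
  have a7 : A ⊆ R ∪ {y} := a4.trans (union_subset_union_left _ h6)
  have a8 : A ∩ K ⊆ {y} := fun z hz => (a7 hz.1).resolve_left (hR.notMem_of_mem_right hz.2)
  refine ⟨A, ⟨a1, (finite_singleton y).subset a8, fun z hz P hP => ?_⟩, a2, a3, a7,
    a5.mono (inter_subset_inter_right _ h6)⟩
  by_cases e : z = y
  · subst e
    obtain ⟨k, H, N, b1, b2, b3, b4, b5, b6⟩ := h7 P hP
    obtain ⟨M, m1, m2, m3⟩ := a6 k
    rcases b6 with b6 | b6
    · refine ⟨N ∩ M, H, ∅, b4.inter m1, ⟨b5, m2⟩, b1, isOpen_empty, b2, by simp, fun t ht => ?_,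
        fun t ht => b6 ⟨ht.1, ht.2.1⟩, by simp⟩
      exact (m3 ⟨ht.1, ht.2.2⟩).imp (fun l => Or.inl (b3 l)) id
    · refine ⟨N ∩ M, ∅, H, b4.inter m1, ⟨b5, m2⟩, isOpen_empty, b1, by simp, b2, fun t ht => ?_,
        by simp, fun t ht => b6 ⟨ht.1, ht.2.1⟩⟩
      exact (m3 ⟨ht.1, ht.2.2⟩).imp (fun l => Or.inr (b3 l)) id
  · exact ⟨Aᶜ, ∅, ∅, a1.isOpen_compl, fun l => e (a8 ⟨l, hz⟩), isOpen_empty, isOpen_empty, by simp,
      by simp, by simp, by simp, by simp⟩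

def Node (K R O u : Set X) : Prop :=
  IsOpen u ∧ IsPreconnected u ∧ u ⊆ R ∧ ((frontier u ∩ O) \ K).Finite

lemma Nul.small [CompactSpace X] [LocallyConnectedSpace X] (hN : Nul X) {K R O : Set X}
    (hK : Ker K) (hR : Disjoint R K) (NS : ∀ V, VV K V → ∀ γ ∈ K ∩ O, γ ∉ closure (R ∩ V))
    {u : Set X} (hu : Node K R O u) {γ : X} (h1 : γ ∈ K ∩ O) (h2 : γ ∈ closure u) {ε : ℝ}
    (hε : 0 < ε) : ∃ u', Node K R O u' ∧ u' ⊆ u ∧ γ ∈ closure u' ∧ u' ⊆ ball γ ε := by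
  by_contra h
  push Not at h
  have nx : ∀ s : {s : Set X // Node K R O s ∧ s ⊆ u ∧ γ ∈ closure s},
      ∃ t : {s : Set X // Node K R O s ∧ s ⊆ u ∧ γ ∈ closure s}, ∃ C, t.1 ⊆ s.1 ∧ C ⊆ s.1 ∧
        Disjoint C t.1 ∧ IsPreconnected C ∧ Big (ε / 2) C := by
    rintro ⟨s, s1, s2, s3⟩
    obtain ⟨a, ha, ha'⟩ := not_subset.1 (h s s1 s2 s3)
    obtain ⟨b, hb, hb'⟩ := Metric.mem_closure_iff.1 s3 (ε / 2) (half_pos hε)
    obtain ⟨C, c1, c2, c3, c4, c5⟩ := join s1.1 s1.2.1 ha hb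
    obtain ⟨V, hV, hV'⟩ := hK.cov c2 (hR.mono_left (c1.trans s1.2.2.1))
    have nf : γ ∉ closure (s ∩ frontier V) := by
      rw [(hV.2.1.inter_of_right s).isClosed.closure_eq]
      exact fun l => hR.notMem_of_mem_left (s1.2.2.1 l.1) h1.1
    have fr : frontier (closure V)ᶜ ⊆ frontier V := by
      rw [frontier_compl]; exact frontier_closure_subset
    obtain ⟨p, -, hp⟩ := hN.comp s1.1 s1.2.1 (isClosed_closure (s := V)).isOpen_compl (γ := γ)
      (by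
        have : s ⊆ (s ∩ (closure V)ᶜ ∪ R ∩ V) ∪ s ∩ frontier V := fun z hz => by
          by_cases k : z ∈ closure V
          · by_cases l : z ∈ V
            · exact Or.inl (Or.inr ⟨s1.2.2.1 hz, l⟩)
            · exact Or.inr ⟨hz, by rw [hV.1.frontier_eq]; exact ⟨k, l⟩⟩
          · exact Or.inl (Or.inl ⟨hz, k⟩)
        have := closure_mono this s3
        rw [closure_union, closure_union] at this
        exact (this.resolve_right nf).resolve_right (NS V hV γ h1))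
      (fun l => nf (closure_mono (inter_subset_inter_right _ fr) l))
    have ho := s1.1.inter (isClosed_closure (s := V)).isOpen_compl
    have hs := connectedComponentIn_subset (s ∩ (closure V)ᶜ) p
    refine ⟨⟨_, ⟨ho.connectedComponentIn, isPreconnected_connectedComponentIn,
      hs.trans (inter_subset_left.trans s1.2.2.1), ?_⟩, hs.trans (inter_subset_left.trans s2), hp⟩,
      C, hs.trans inter_subset_left, c1, ?_, c3, a, c4, b, c5, ?_⟩
    · refine (s1.2.2.2.union hV.2.1).subset fun z hz => ?_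
      rcases frontier_inter_subset _ _ (fr_cc ho p hz.1.1) with l | l
      · exact Or.inl ⟨⟨l.1, hz.1.2⟩, hz.2⟩
      · exact Or.inr (fr l.2)
    · rw [Set.disjoint_left]
      exact fun z hz l => (hs l).2 (subset_closure (hV' hz))
    · have := dist_triangle a b γ
      rw [mem_ball, not_lt] at ha'
      rw [dist_comm] at hb'
      linarith
  choose f C f1 f2 f3 f4 f5 using nx
  let d : ℕ → {s : Set X // Node K R O s ∧ s ⊆ u ∧ γ ∈ closure s} :=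
    fun n => Nat.rec ⟨u, hu, subset_rfl, h2⟩ (fun _ s => f s) n
  exact hN.nest (half_pos hε) (fun n => (d n).1) (fun n => C (d n)) (fun n => f1 (d n))
    (fun n => f2 (d n)) (fun n => f3 (d n)) (fun n => f4 (d n)) (fun n => f5 (d n))

lemma Nul.base (hN : Nul X) {K : Set X} (hK : Ker K) :
    ∃ N : ℕ → Set X, (∀ k, IsCompact (N k) ∧ IsPreconnected (N k) ∧ N k ⊆ K) ∧
      ∀ y ∈ K, ∀ ε > 0, ∃ k, N k ∈ 𝓝[K] y ∧ N k ⊆ ball y ε := by
  have h : ∀ n : ℕ, ∃ T : Set (Set X), T.Finite ∧ (∀ M ∈ T, IsCompact M ∧ IsPreconnected M ∧ M ⊆ K ∧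
      ∃ c, M ⊆ closedBall c (1 / (n + 1))) ∧ ∀ y ∈ K, ∃ M ∈ T, M ∈ 𝓝[K] y := by
    intro n
    have hp : (0 : ℝ) < 1 / (n + 1) := by positivity
    have := fun (y : K) => hN.lc hK.cpt hK.con y.2 hp
    choose M m1 m2 m3 m4 using this
    have := fun (y : K) => mem_nhdsWithin.1 (m4 y)
    choose U u1 u2 u3 using this
    obtain ⟨t, ht⟩ := hK.cpt.elim_finite_subcover U u1 fun y hy => mem_iUnion.2 ⟨⟨y, hy⟩, u2 _⟩
    refine ⟨M '' t, t.finite_toSet.image _, ?_, fun y hy => ?_⟩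
    · rintro _ ⟨c, -, rfl⟩
      exact ⟨m2 c, m3 c, (m1 c).trans inter_subset_left, c, (m1 c).trans inter_subset_right⟩
    · obtain ⟨c, c1, c2⟩ := mem_iUnion₂.1 (ht hy)
      exact ⟨_, ⟨c, c1, rfl⟩, mem_nhdsWithin.2 ⟨U c, u1 c, c2, u3 c⟩⟩
  choose T t1 t2 t3 using h
  have hc : (insert ∅ (⋃ n, T n)).Countable := (countable_iUnion fun n => (t1 n).countable).insert _
  obtain ⟨N, hN'⟩ := hc.exists_eq_range (insert_nonempty _ _)
  refine ⟨N, fun k => ?_, fun y hy ε hε => ?_⟩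
  · have : N k ∈ insert ∅ (⋃ n, T n) := by rw [hN']; exact mem_range_self k
    rcases this with l | l
    · rw [l]; exact ⟨isCompact_empty, isPreconnected_empty, empty_subset _⟩
    · obtain ⟨n, hn⟩ := mem_iUnion.1 l
      exact ⟨(t2 n _ hn).1, (t2 n _ hn).2.1, (t2 n _ hn).2.2.1⟩
  · obtain ⟨n, hn⟩ := exists_nat_one_div_lt (half_pos hε)
    obtain ⟨M, m1, m2⟩ := t3 n y hy
    have : M ∈ range N := by rw [← hN']; exact Or.inr (mem_iUnion.2 ⟨n, m1⟩)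
    obtain ⟨k, rfl⟩ := this
    obtain ⟨c, hc⟩ := (t2 n _ m1).2.2.2
    refine ⟨k, m2, fun z hz => ?_⟩
    have := mem_closedBall.1 (hc hz)
    have := mem_closedBall.1 (hc (mem_of_mem_nhdsWithin hy m2))
    have := dist_triangle_right z y c
    rw [mem_ball]; linarith

end Pool.Agent.H.MP_77b145_gt
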