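import Pool.Agent.H.MP_77b145_gt.D

set_option autoImplicit false
open Set Metric Topology Filter

namespace Pool.Agent.H.MP_77b145_gt

variable {X : Type} [MetricSpace X]

lemma side {K R O u M P : Set X} (hO : IsOpen O) (hu : Node K R O u) {y : X} (hy : y ∈ K ∩ O)
    (hM : IsOpen M) (hyM : y ∈ M)
    (h : closure u ∩ K ∩ M ⊆ P ∪ {y} ∨ closure u ∩ K ∩ M ⊆ Pᶜ ∪ {y}) :
    ∃ N, IsOpen N ∧ y ∈ N ∧
      (frontier u ∩ N ⊆ (K ∩ P) ∪ {y} ∨ frontier u ∩ N ⊆ (K \ P) ∪ {y}) := by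
  refine ⟨M ∩ O ∩ ((frontier u ∩ O) \ K)ᶜ, (hM.inter hO).inter hu.2.2.2.isClosed.isOpen_compl,
    ⟨⟨hyM, hy.2⟩, fun l => l.2 hy.1⟩, h.imp (fun h z hz => ?_) (fun h z hz => ?_)⟩
  · have zK : z ∈ K := by_contra fun l => hz.2.2 ⟨⟨hz.1, hz.2.1.2⟩, l⟩
    exact (h ⟨⟨hz.1.1, zK⟩, hz.2.1.1⟩).imp (fun l => ⟨zK, l⟩) id
  · have zK : z ∈ K := by_contra fun l => hz.2.2 ⟨⟨hz.1, hz.2.1.2⟩, l⟩
    exact (h ⟨⟨hz.1.1, zK⟩, hz.2.1.1⟩).imp (fun l => ⟨zK, l⟩) id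

lemma Nul.ray [CompactSpace X] [LocallyConnectedSpace X] (hN : Nul X) {K R O : Set X}
    (hK : Ker K) (r1 : IsOpen R) (r2 : IsPreconnected R) (hR : Disjoint R K) (hO : IsOpen O)
    (hf : frontier R ∩ O ⊆ K) {γ : X} (h1 : γ ∈ K ∩ O) (h2 : γ ∈ closure R) :
    ∃ y ∈ K ∩ O, ∃ A, Gd K A ∧ IsPreconnected A ∧ y ∈ A ∧ A ⊆ R ∪ {y} ∧ (A ∩ R).Nonempty := by
  by_cases NS : ∃ V, VV K V ∧ ∃ y ∈ K ∩ O, y ∈ closure (R ∩ V)
  · obtain ⟨V, hV, y, hy, hy'⟩ := NS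
    obtain ⟨p, -, hp⟩ := hN.comp r1 r2 hV.1 hy' (by
      rw [(hV.2.1.inter_of_right R).isClosed.closure_eq]
      exact fun l => hR.notMem_of_mem_left l.1 hy.1)
    obtain ⟨w, w0, w1, w2, w3, w4, w5⟩ := hN.ballseq ((r1.inter hV.1).connectedComponentIn (x := p))
      isPreconnected_connectedComponentIn hp
    have hs : w 0 ⊆ R ∩ V := by rw [w0]; exact connectedComponentIn_subset _ _
    refine ⟨y, hy, goodray hR w hy.1 w1 w2 w3 w4 w5 (hs.trans inter_subset_left) fun P _ => ?_⟩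
    refine ⟨0, V, (frontier V \ {y})ᶜ, hV.1, hV.2.2, hs.trans inter_subset_right,
      (hV.2.1.subset diff_subset).isClosed.isOpen_compl, fun l => l.2 rfl, Or.inl fun z hz => ?_⟩
    exact Or.inr (by_contra fun l => hz.2 ⟨hz.1, l⟩)
  push Not at NS
  obtain ⟨η, hη, hηO⟩ := Metric.nhds_basis_closedBall.mem_iff.1 (hO.mem_nhds h1.2)
  obtain ⟨u0, u1, -, u3, u4⟩ := hN.small hK hR NS (u := R)
    ⟨r1, r2, subset_rfl, by rw [diff_eq_empty.2 hf]; exact finite_empty⟩ h1 h2 hη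
  have cO : ∀ u, u ⊆ u0 → closure u ⊆ O := fun u hu =>
    (isClosed_closedBall.closure_subset_iff.2 ((hu.trans u4).trans ball_subset_closedBall)).trans hηO
  obtain ⟨N, n1, n2⟩ := hN.base hK
  have hKc := hK.cpt.isClosed
  by_cases A : ∃ u k, Node K R O u ∧ u ⊆ u0 ∧ (closure u ∩ K).Nonempty ∧ ∀ u', Node K R O u' →
      u' ⊆ u → (closure u' ∩ K).Nonempty →
      ∃ y ∈ closure u' ∩ K, N k ∈ 𝓝[K] y ∧ Ct (N k) (closure u' ∩ K) y
  · obtain ⟨u, k, a1, a2, a3, a4⟩ := A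
    obtain ⟨y, hy, hyN, -⟩ := a4 u a1 subset_rfl a3
    obtain ⟨U, b1, b2, b3⟩ := mem_nhdsWithin.1 hyN
    obtain ⟨p, hp, hpy⟩ : ∃ p ∈ K ∩ U, p ≠ y := by
      obtain ⟨p, p1, p2⟩ := (hK.inf b1 hy.2 b2).exists_notMem_finite (finite_singleton y)
      exact ⟨p, p1, p2⟩
    obtain ⟨ε, hε, hεU⟩ := Metric.nhds_basis_closedBall.mem_iff.1
      ((b1.inter isOpen_compl_singleton (t := {p}ᶜ)).mem_nhds ⟨b2, hpy.symm⟩)
    obtain ⟨v, v1, v2, v3, v4⟩ := hN.small hK hR NS a1 ⟨hy.2, cO u a2 hy.1⟩ hy.1 hε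
    have v5 : closure v ⊆ U ∩ {p}ᶜ :=
      (isClosed_closedBall.closure_subset_iff.2 (v4.trans ball_subset_closedBall)).trans hεU
    obtain ⟨y0, c1, c2⟩ := hN.cut (N := N k) (Γ := closure v ∩ K) (n1 k).2.1
      (isClosed_closure.inter hKc) ⟨y, v3, hy.2⟩ (fun z hz => b3 ⟨(v5 hz.1).1, hz.2⟩)
      (b3 ⟨hp.2, hp.1⟩) (fun l => (v5 l.1).2 rfl) (by
        rintro W hW ⟨z, hz, hzW⟩
        obtain ⟨δ, hδ, hδW⟩ := Metric.nhds_basis_closedBall.mem_iff.1 (hW.mem_nhds hzW)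
        obtain ⟨t, t1, t2, t3, t4⟩ := hN.small hK hR NS v1 ⟨hz.2, cO v (v2.trans a2) hz.1⟩ hz.1 hδ
        obtain ⟨s, s1, -, P, Q, s2, s3, s4, s5, s6, s7⟩ := a4 t t1 (t2.trans v2) ⟨z, t3, hz.2⟩
        have e : closure t ∩ K ⊆ closure v ∩ K := inter_subset_inter_left _ (closure_mono t2)
        refine ⟨s, ⟨e s1, hδW (isClosed_closedBall.closure_subset_iff.2
          (t4.trans ball_subset_closedBall) s1.1)⟩, P, Q, s2, s3, s4, s5, ?_, ?_⟩
        · exact closure_mono (diff_subset_diff_left (inter_subset_inter_right _ e)) s6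
        · exact closure_mono (diff_subset_diff_left (inter_subset_inter_right _ e)) s7)
    have hy0 : y0 ∈ K ∩ O := ⟨c1.2, cO v (v2.trans a2) c1.1⟩
    obtain ⟨w, w0, w1, w2, w3, w4, w5⟩ := hN.ballseq v1.1 v1.2.1 c1.1
    refine ⟨y0, hy0, goodray hR w c1.2 w1 w2 w3 w4 w5 (by rw [w0]; exact v1.2.2.1) fun P hP => ?_⟩
    obtain ⟨δ, hδ, hδP⟩ := Metric.isOpen_iff.1 isClosed_closure.isOpen_compl y0 hP
    obtain ⟨D, d1, d2, d3, θ, hθ, d4⟩ := c2 δ hδ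
    have DK : D ⊆ K := fun z hz => (n1 k).2.2 (d2 hz).1
    have nb : ∀ z ∈ D, z ∉ bd K P := fun z hz l =>
      hδP (d2 hz).2 (subset_closure ⟨l, fun e => d3 (by rw [← show z = y0 from e]; exact hz)⟩)
    obtain ⟨M, m1, m2, m3⟩ := side (P := P) hO v1 hy0 isOpen_ball (mem_ball_self hθ) (by
      have := isPreconnected_iff_subset_of_disjoint_closed.1 d1 (closure (K ∩ P)) (closure (K \ P))
        isClosed_closure isClosed_closure (fun z hz => by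
          by_cases c : z ∈ P
          · exact Or.inl (subset_closure ⟨DK hz, c⟩)
          · exact Or.inr (subset_closure ⟨DK hz, c⟩))
        (eq_empty_of_forall_notMem fun z hz => nb z hz.1 hz.2)
      refine this.imp (fun l z hz => ?_) (fun l z hz => ?_)
      · refine (d4 hz).imp (fun m => by_contra fun c => ?_) id
        exact nb z m ⟨l m, subset_closure ⟨DK m, c⟩⟩
      · refine (d4 hz).imp (fun m c => ?_) id
        exact nb z m ⟨subset_closure ⟨DK m, c⟩, l m⟩)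
    exact ⟨0, v, M, v1.1, hR.mono_left v1.2.2.1, w0.subset, m1, m2, m3⟩
  push Not at A
  have nx : ∀ (k : ℕ) (s : {s : Set X // Node K R O s ∧ s ⊆ u0 ∧ (closure s ∩ K).Nonempty}),
      ∃ t : {s : Set X // Node K R O s ∧ s ⊆ u0 ∧ (closure s ∩ K).Nonempty}, t.1 ⊆ s.1 ∧
        (∃ c, t.1 ⊆ ball c (1 / (k + 1))) ∧
        ∀ y ∈ closure t.1 ∩ K, N k ∈ 𝓝[K] y → ¬ Ct (N k) (closure t.1 ∩ K) y := by
    rintro k ⟨s, s1, s2, c, s3⟩
    have hp : (0 : ℝ) < 1 / (k + 1) := by positivity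
    obtain ⟨t, t1, t2, t3, t4⟩ := hN.small hK hR NS s1 ⟨s3.2, cO s s2 s3.1⟩ s3.1 hp
    obtain ⟨v, v1, v2, v3, v4⟩ := A t k t1 (t2.trans s2) ⟨c, t3, s3.2⟩
    exact ⟨⟨v, v1, v2.trans (t2.trans s2), v3⟩, v2.trans t2, ⟨c, v2.trans t4⟩, v4⟩
  choose f f1 f2 f3 using nx
  let d : ℕ → {s : Set X // Node K R O s ∧ s ⊆ u0 ∧ (closure s ∩ K).Nonempty} :=
    fun n => Nat.rec ⟨u0, u1, subset_rfl, γ, u3, h1.1⟩ f n
  obtain ⟨y, hy⟩ := IsCompact.nonempty_iInter_of_sequence_nonempty_isCompact_isClosed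
    (fun n => closure (d n).1 ∩ K) (fun n => inter_subset_inter_left _ (closure_mono (f1 n (d n))))
    (fun n => (d n).2.2.2) (isClosed_closure.inter hKc).isCompact
    (fun n => isClosed_closure.inter hKc)
  rw [mem_iInter] at hy
  have hy0 : y ∈ K ∩ O := ⟨(hy 0).2, cO _ (d 0).2.2.1 (hy 0).1⟩
  refine ⟨y, hy0, goodray hR (fun n => (d n).1) hy0.1 (fun n => (d n).2.1.1) (fun n => (d n).2.1.2.1)
    (fun n => closure_nonempty_iff.1 ⟨y, (hy n).1⟩) (fun n => f1 n (d n)) (fun ε hε => ?_)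
    (d 0).2.1.2.2.1 fun P hP => ?_⟩
  · obtain ⟨k, hk⟩ := exists_nat_one_div_lt (half_pos hε)
    obtain ⟨c, hc⟩ := f2 k (d k)
    refine ⟨k + 1, fun z hz => ?_⟩
    have := mem_ball.1 (hc hz)
    have := mem_closedBall.1 (isClosed_closedBall.closure_subset_iff.2
      (hc.trans ball_subset_closedBall) (hy (k + 1)).1)
    have := dist_triangle_right z y c
    rw [mem_ball]; linarith
  · obtain ⟨δ, hδ, hδP⟩ := Metric.isOpen_iff.1 isClosed_closure.isOpen_compl y hP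
    obtain ⟨k, k1, k2⟩ := n2 y hy0.1 δ hδ
    obtain ⟨U, b1, b2, b3⟩ := mem_nhdsWithin.1 k1
    have yN : y ∈ N k := b3 ⟨b2, hy0.1⟩
    have nb : ∀ z ∈ N k, z ≠ y → z ∉ bd K P := fun z hz e l => hδP (k2 hz) (subset_closure ⟨l, e⟩)
    have := f3 k (d k) y (hy (k + 1)) k1
    unfold Ct at this
    push Not at this
    have := this ((N k ∩ closure (K ∩ P)) ∪ {y}) ((N k ∩ closure (K \ P)) ∪ {y})
      (((n1 k).1.isClosed.inter isClosed_closure).union isClosed_singleton)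
      (((n1 k).1.isClosed.inter isClosed_closure).union isClosed_singleton) (by
        refine Subset.antisymm ?_ fun z hz => ?_
        · rintro z ((l | l) | (l | l))
          · exact l.1
          · rw [show z = y from l]; exact yN
          · exact l.1
          · rw [show z = y from l]; exact yN
        · by_cases c : z ∈ P
          · exact Or.inl (Or.inl ⟨hz, subset_closure ⟨(n1 k).2.2 hz, c⟩⟩)
          · exact Or.inr (Or.inl ⟨hz, subset_closure ⟨(n1 k).2.2 hz, c⟩⟩)) (by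
        refine Subset.antisymm ?_ fun z hz => ⟨Or.inr hz, Or.inr hz⟩
        rintro z ⟨l | l, m | m⟩
        · exact by_contra fun e => nb z l.1 e ⟨l.2, m.2⟩
        · exact m
        · exact l
        · exact l)
    have aux : ∀ S : Set X, y ∉ closure (((N k ∩ closure (K ∩ S) ∪ {y}) ∩
        (closure (d (k + 1)).1 ∩ K)) \ {y}) → ∃ M, IsOpen M ∧ y ∈ M ∧
        closure (d (k + 1)).1 ∩ K ∩ M ⊆ Sᶜ ∪ {y} := by
      intro S hS
      refine ⟨_, b1.inter isClosed_closure.isOpen_compl, ⟨b2, hS⟩, fun z hz => ?_⟩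
      by_cases e : z = y
      · exact Or.inr e
      · exact Or.inl fun c => hz.2.2 (subset_closure
          ⟨⟨Or.inl ⟨b3 ⟨hz.2.1, hz.1.2⟩, subset_closure ⟨hz.1.2, c⟩⟩, hz.1⟩, e⟩)
    have h3 : ∃ M, IsOpen M ∧ y ∈ M ∧ (closure (d (k + 1)).1 ∩ K ∩ M ⊆ P ∪ {y} ∨
        closure (d (k + 1)).1 ∩ K ∩ M ⊆ Pᶜ ∪ {y}) := by
      by_cases c : y ∈ closure (((N k ∩ closure (K ∩ P) ∪ {y}) ∩
        (closure (d (k + 1)).1 ∩ K)) \ {y})
      · obtain ⟨M, m1, m2, m3⟩ := aux Pᶜ (this c)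
        exact ⟨M, m1, m2, Or.inl (by rwa [compl_compl] at m3)⟩
      · obtain ⟨M, m1, m2, m3⟩ := aux P c
        exact ⟨M, m1, m2, Or.inr m3⟩
    obtain ⟨M, m1, m2, m3⟩ := h3
    obtain ⟨M', l1, l2, l3⟩ := side hO (d (k + 1)).2.1 hy0 m1 m2 m3
    exact ⟨k + 1, _, M', (d (k + 1)).2.1.1, hR.mono_left (d (k + 1)).2.1.2.2.1, subset_rfl, l1, l2, l3⟩

end Pool.Agent.H.MP_77b145_gt
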