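import Pool.Agent.H.MP_77b145_gt.E

set_option autoImplicit false
open Set Metric Topology Filter

namespace Pool.Agent.H.MP_77b145_gt

variable {X : Type} [MetricSpace X]

lemma Ker.big [LocallyConnectedSpace X] {K H L Ω : Set X} (hK : Ker K) (hH : IsOpen H)
    (hL : IsClosed L) {w x : X} (h1 : w ∈ H) (h2 : w ∈ K) (h3 : w ∈ Ω) (hx : x ∈ K) (hxL : x ∉ L)
    {δ : ℝ} (h4 : ∀ a ∈ Ω, ∀ z, dist a z < δ → z ∈ L) (h5 : (frontier H ∩ L).Finite) :
    ∃ C, C ⊆ H ∧ IsPreconnected C ∧ Big δ C := by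
  by_contra h
  push Not at h
  have yo : IsOpen (⋃ p ∈ H ∩ Ω, connectedComponentIn H p) :=
    isOpen_biUnion fun p _ => hH.connectedComponentIn
  have yL : closure (⋃ p ∈ H ∩ Ω, connectedComponentIn H p) ⊆ L := by
    refine hL.closure_subset_iff.2 fun z hz => ?_
    obtain ⟨p, hp, hz⟩ := mem_iUnion₂.1 hz
    refine h4 p hp.2 z (lt_of_not_ge fun l => ?_)
    exact h _ (connectedComponentIn_subset H p) isPreconnected_connectedComponentIn
      ⟨p, mem_connectedComponentIn hp.1, z, hz, l⟩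
  have yH : (⋃ p ∈ H ∩ Ω, connectedComponentIn H p) ⊆ H :=
    iUnion₂_subset fun p _ => connectedComponentIn_subset H p
  have yf : (frontier (⋃ p ∈ H ∩ Ω, connectedComponentIn H p)).Finite := by
    refine h5.subset fun z hz => ⟨?_, yL hz.1⟩
    rw [yo.frontier_eq] at hz
    rw [hH.frontier_eq]
    refine ⟨closure_mono yH hz.1, fun l => hz.2 ?_⟩
    obtain ⟨t, t1, t2⟩ := _root_.mem_closure_iff.1 hz.1 _ (hH.connectedComponentIn (x := z))
      (mem_connectedComponentIn l)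
    obtain ⟨p, hp, t2⟩ := mem_iUnion₂.1 t2
    refine mem_biUnion hp ?_
    rw [connectedComponentIn_eq t2, ← connectedComponentIn_eq t1]
    exact mem_connectedComponentIn l
  rcases hK.ult _ yf with k | k
  · exact hxL (yL (k hx))
  · rw [yo.isClosed_compl.closure_eq] at k
    exact k h2 (mem_biUnion (x := w) ⟨h1, h3⟩ (mem_connectedComponentIn h1))

lemma frL_inter {E F L : Set X} (h1 : (frontier E ∩ L).Finite) (h2 : (frontier F ∩ L).Finite) :
    (frontier (E ∩ F) ∩ L).Finite :=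
  (h1.union h2).subset fun _ hz =>
    (frontier_inter_subset _ _ hz.1).imp (fun l => ⟨l.1, hz.2⟩) (fun l => ⟨l.2, hz.2⟩)

def Fn (L S s : Set X) : Prop :=
  ∃ T : Set (Set X), T.Finite ∧ ∀ E, (frontier E ∩ L).Finite → ∃ F ∈ T, (symmDiff E F ∩ s ∩ S).Finite

lemma Fn.split {L S s E : Set X} (h1 : Fn L S (s ∩ E)) (h2 : Fn L S (s ∩ Eᶜ)) : Fn L S s := by
  obtain ⟨T, t1, t2⟩ := h1
  obtain ⟨U, u1, u2⟩ := h2
  refine ⟨image2 (fun A B => (A ∩ E) ∪ (B ∩ Eᶜ)) T U, t1.image2 _ u1, fun G hG => ?_⟩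
  obtain ⟨A, a1, a2⟩ := t2 G hG
  obtain ⟨B, b1, b2⟩ := u2 G hG
  refine ⟨_, mem_image2_of_mem a1 b1, (a2.union b2).subset fun z hz => ?_⟩
  simp only [mem_inter_iff, mem_symmDiff, mem_union, mem_compl_iff] at hz ⊢
  tauto

lemma Nul.fn [LocallyConnectedSpace X] (hN : Nul X) {K L Ω : Set X} (hK : Ker K)
    (hL : IsClosed L) {x : X} (hx : x ∈ K) (hxL : x ∉ L)
    {δ : ℝ} (hδ : 0 < δ) (h4 : ∀ a ∈ Ω, ∀ z, dist a z < δ → z ∈ L) : Fn L (K ∩ Ω) univ := by
  by_contra h
  have out : ∀ s : Set X, (frontier s ∩ L).Finite → (s ∩ (K ∩ Ω)).Infinite →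
      ∃ C, C ⊆ s ∧ IsPreconnected C ∧ Big δ C := by
    intro s h1 h2
    obtain ⟨w, w1, w2⟩ := h2.exists_notMem_finite h1
    have wL : w ∈ L := h4 w w1.2.2 w (by simpa using hδ)
    obtain ⟨C, c1, c2⟩ := hK.big isOpen_interior hL (H := interior s)
      (by_contra fun l => w2 ⟨⟨subset_closure w1.1, l⟩, wL⟩) w1.2.1 w1.2.2 hx hxL h4
      (h1.subset (inter_subset_inter_left _ frontier_interior_subset))
    exact ⟨C, c1.trans interior_subset, c2⟩
  have nx : ∀ s : {s : Set X // (frontier s ∩ L).Finite ∧ ¬ Fn L (K ∩ Ω) s},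
      ∃ t : {s : Set X // (frontier s ∩ L).Finite ∧ ¬ Fn L (K ∩ Ω) s}, ∃ C, t.1 ⊆ s.1 ∧ C ⊆ s.1 ∧
        Disjoint C t.1 ∧ IsPreconnected C ∧ Big δ C := by
    rintro ⟨s, s1, s2⟩
    have : ∃ E, (frontier E ∩ L).Finite ∧ (s ∩ E ∩ (K ∩ Ω)).Infinite ∧
        (s ∩ Eᶜ ∩ (K ∩ Ω)).Infinite := by
      by_contra k
      push Not at k
      refine s2 ⟨{∅, univ}, toFinite _, fun E hE => ?_⟩
      by_cases c : (s ∩ E ∩ (K ∩ Ω)).Finite
      · refine ⟨∅, by simp, c.subset fun z hz => ?_⟩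
        simp only [mem_inter_iff, mem_symmDiff, mem_empty_iff_false] at hz ⊢
        tauto
      · refine ⟨univ, by simp, (k E hE c).subset fun z hz => ?_⟩
        simp only [mem_inter_iff, mem_symmDiff, mem_univ, mem_compl_iff] at hz ⊢
        tauto
    obtain ⟨E, e1, e2, e3⟩ := this
    have e4 : (frontier Eᶜ ∩ L).Finite := by rwa [frontier_compl]
    by_cases c : Fn L (K ∩ Ω) (s ∩ E)
    · obtain ⟨C, c1, c2⟩ := out _ (frL_inter s1 e1) e2
      refine ⟨⟨s ∩ Eᶜ, frL_inter s1 e4, fun l => s2 (c.split l)⟩, C, inter_subset_left,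
        c1.trans inter_subset_left, ?_, c2⟩
      rw [Set.disjoint_left]
      exact fun z hz l => l.2 (c1 hz).2
    · obtain ⟨C, c1, c2⟩ := out _ (frL_inter s1 e4) e3
      refine ⟨⟨s ∩ E, frL_inter s1 e1, c⟩, C, inter_subset_left,
        c1.trans inter_subset_left, ?_, c2⟩
      rw [Set.disjoint_left]
      exact fun z hz l => (c1 hz).2 l.2
  choose f C f1 f2 f3 f4 f5 using nx
  let d : ℕ → {s : Set X // (frontier s ∩ L).Finite ∧ ¬ Fn L (K ∩ Ω) s} :=
    fun n => Nat.rec ⟨univ, by simp, h⟩ (fun _ s => f s) n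
  exact hN.nest hδ (fun n => (d n).1) (fun n => C (d n)) (fun n => f1 (d n))
    (fun n => f2 (d n)) (fun n => f3 (d n)) (fun n => f4 (d n)) (fun n => f5 (d n))

def Reg (K P : Set X) : Prop := ∃ U, IsOpen U ∧ P = closure (K ∩ U)

lemma Reg.sub {K P Q Ω : Set X} (hK : Ker K) (hP : Reg K P) (hQ : IsClosed Q) (hΩ : IsOpen Ω)
    (h : ((P \ Q) ∩ (K ∩ Ω)).Finite) : P ∩ Ω ⊆ Q := by
  obtain ⟨U, hU, rfl⟩ := hP
  intro z hz
  by_contra k
  obtain ⟨y, y1, y2⟩ := _root_.mem_closure_iff.1 hz.1 _ (hΩ.inter hQ.isOpen_compl) ⟨hz.2, k⟩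
  refine hK.inf (hU.inter (hΩ.inter hQ.isOpen_compl)) y2.1 ⟨y2.2, y1⟩ (h.subset fun t ht => ?_)
  exact ⟨⟨subset_closure ⟨ht.1, ht.2.1⟩, ht.2.2.2⟩, ht.1, ht.2.2.1⟩

lemma Reg.closed {K P : Set X} (h : Reg K P) : IsClosed P := by
  obtain ⟨U, -, rfl⟩ := h
  exact isClosed_closure

lemma Nul.ts [CompactSpace X] [LocallyConnectedSpace X] (hN : Nul X) {K : Set X} (hK : Ker K)
    {x : X} (hx : x ∈ K) {ρ r : ℝ} (hρ : 0 < ρ) (hr : 0 < r) :
    {t | ∃ P, Reg K P ∧ (∀ z ∈ ball x (2 * r), ρ / 2 < dist z x → nT K P z) ∧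
      t = P ∩ (ball x r \ closedBall x ρ)}.Finite := by
  have hL : IsClosed (closedBall x (3 * r / 2) \ ball x (3 * ρ / 4)) :=
    isClosed_closedBall.sdiff isOpen_ball
  have hΩ : IsOpen (ball x r \ closedBall x ρ) := isOpen_ball.sdiff isClosed_closedBall
  have h4 : ∀ a ∈ ball x r \ closedBall x ρ, ∀ z, dist a z < min (ρ / 4) (r / 2) →
      z ∈ closedBall x (3 * r / 2) \ ball x (3 * ρ / 4) := by
    intro a ha z hz
    have := min_le_left (ρ / 4) (r / 2)
    have := min_le_right (ρ / 4) (r / 2)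
    have := dist_triangle a z x
    have := dist_triangle_left z x a
    simp only [mem_diff, mem_ball, mem_closedBall, not_lt, not_le] at ha ⊢
    constructor <;> linarith [ha.1, ha.2]
  have hδ : 0 < min (ρ / 4) (r / 2) := lt_min (by linarith) (by linarith)
  obtain ⟨T, t1, t2⟩ := hN.fn hK hL hx (fun l => l.2 (mem_ball_self (by linarith))) hδ h4
  have key : ∀ P, (∀ z ∈ ball x (2 * r), ρ / 2 < dist z x → nT K P z) →
      ∃ F ∈ T, (symmDiff P F ∩ (K ∩ (ball x r \ closedBall x ρ))).Finite := by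
    intro P hP
    obtain ⟨O, -, o2, E, e1, e2⟩ := hK.patch (P := P) hL.isCompact fun z hz => hP z (by
      have := mem_closedBall.1 hz.1
      rw [mem_ball]; linarith) (by
      have := hz.2
      rw [mem_ball, not_lt] at this
      linarith)
    obtain ⟨F, f1, f2⟩ := t2 E (e1.subset (inter_subset_inter_right _ o2))
    refine ⟨F, f1, f2.subset fun z hz => ⟨⟨?_, mem_univ _⟩, hz.2⟩⟩
    have := e2 z hz.2.1 (o2 (h4 z hz.2.2 z (by simpa using hδ)))
    have := hz.1
    rw [mem_symmDiff] at *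
    tauto
  refine (t1.biUnion (t := fun F => {t | ∃ P, Reg K P ∧
    (symmDiff P F ∩ (K ∩ (ball x r \ closedBall x ρ))).Finite ∧
      t = P ∩ (ball x r \ closedBall x ρ)}) fun F _ => Set.Subsingleton.finite ?_).subset ?_
  · rintro _ ⟨P, p1, p2, rfl⟩ _ ⟨Q, q1, q2, rfl⟩
    refine Subset.antisymm (subset_inter (p1.sub hK q1.closed hΩ ?_) inter_subset_right)
      (subset_inter (q1.sub hK p1.closed hΩ ?_) inter_subset_right)
    all_goals
      refine (p2.union q2).subset fun z hz => ?_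
      simp only [mem_inter_iff, mem_symmDiff, mem_union, mem_diff] at hz ⊢
      tauto
  · rintro _ ⟨P, p1, p2, rfl⟩
    obtain ⟨F, f1, f2⟩ := key P p2
    exact mem_biUnion f1 ⟨P, p1, f2, rfl⟩

def Cls (K : Set X) (c : X) (r : ℝ) (P : Set X) (x : X) : Prop :=
  Reg K P ∧ x ∈ ball c r ∧ (∀ z ∈ ball c (3 * r), z ≠ x → nT K P z) ∧
    ¬ ∃ Q : Set X, (∀ z, z ∉ ball c (2 * r) → (z ∈ Q ↔ z ∈ P)) ∧ ∀ z ∈ ball c (3 * r), nT K Q z

lemma Ker.ne [CompactSpace X] {K P : Set X} (hK : Ker K) (hP : Reg K P) {x : X} (hx : x ∈ K)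
    (hT : ¬ nT K P x) {R : ℝ} (hR : 0 < R) (h : ∀ z ∈ ball x R, z ≠ x → nT K P z) {q : ℕ → X}
    (hq : DenseRange q) : ∃ j m : ℕ, Cls K (q j) (1 / (m + 1)) P x := by
  by_contra hn
  push Not at hn
  obtain ⟨a, ha, hne⟩ : ∃ z ∈ K, z ≠ x := by
    obtain ⟨a, ha, b, hb, h⟩ := hK.two
    by_cases k : a = x
    · exact ⟨b, hb, fun e => h (k.trans e.symm)⟩
    · exact ⟨a, ha, k⟩
  have hd := dist_pos.2 hne
  have ex : ∀ ε > 0, ∃ Q : Set X, (∀ z, z ∉ ball x ε → (z ∈ Q ↔ z ∈ P)) ∧ nT K Q x ∧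
      ∀ z, z ≠ x → nT K (symmDiff P Q) z := by
    intro ε hε
    obtain ⟨m, hm⟩ := exists_nat_one_div_lt (lt_min (show 0 < ε / 3 by linarith)
      (show 0 < R / 4 by linarith))
    have hp : (0 : ℝ) < 1 / (m + 1) := by positivity
    obtain ⟨j, hj⟩ := hq.exists_dist_lt x hp
    have := hn j m
    have m1 := hm.trans_le (min_le_left _ _)
    have m2 := hm.trans_le (min_le_right _ _)
    generalize (1 : ℝ) / (m + 1) = r at *
    unfold Cls at this
    push Not at this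
    obtain ⟨Q, q1, q2⟩ := this hP hj fun z hz e => h z (by
      have := dist_triangle_right z x (q j)
      rw [mem_ball] at *; linarith) e
    refine ⟨Q, fun z hz => q1 z fun l => hz ?_, q2 x (by rw [mem_ball]; linarith), fun z e => ?_⟩
    · have := dist_triangle_right z x (q j)
      rw [mem_ball] at *; linarith
    · by_cases c : z ∈ ball (q j) (3 * r)
      · refine (h z ?_ e).sd (q2 z c)
        have := dist_triangle_right z x (q j)
        rw [mem_ball] at *; linarith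
      · refine (nT_empty K z).congr (M := (closedBall (q j) (2 * r))ᶜ)
          isClosed_closedBall.isOpen_compl (fun l => c ?_) fun t _ l _ => ?_
        · rw [mem_closedBall] at l
          rw [mem_ball]; linarith
        · have := q1 t fun k => l (ball_subset_closedBall k)
          simp only [mem_symmDiff, mem_empty_iff_false]
          tauto
  obtain ⟨Q, q1, q2, q3⟩ := ex _ (half_pos hd)
  have fin : ∀ ε > 0, ((K ∩ symmDiff P Q) \ ball x ε).Finite := by
    intro ε hε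
    obtain ⟨S, s1, s2, s3⟩ := ex (min ε (dist a x / 2)) (lt_min hε (half_pos hd))
    have := hK.glob (P := symmDiff Q S) fun z => by
      by_cases e : z = x
      · rw [e]; exact q2.sd s2
      · refine ((q3 z e).sd (s3 z e)).congr isOpen_univ (mem_univ _) fun t _ _ _ => ?_
        simp only [mem_symmDiff]
        tauto
    rcases this with k | k
    · refine k.subset fun z hz => ⟨hz.1.1, ?_⟩
      have := s1 z fun l => hz.2 (ball_subset_ball (min_le_left _ _) l)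
      have := hz.1.2
      rw [mem_symmDiff] at *
      tauto
    · refine absurd (k.subset fun z hz => ⟨hz.1, ?_⟩) (hK.inf
        (isClosed_closedBall (x := x) (ε := dist a x / 2)).isOpen_compl ha (fun l => ?_))
      · have := s1 z fun l => hz.2 (ball_subset_closedBall (ball_subset_ball (min_le_right _ _) l))
        have := q1 z fun l => hz.2 (ball_subset_closedBall l)
        rw [mem_symmDiff]
        tauto
      · rw [mem_closedBall] at l
        linarith
  obtain ⟨N, n1, n2, E, e1, e2⟩ := q2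
  refine hT (nT.congr (P := Q) ⟨N, n1, n2, E, e1, e2⟩
    (n1.inter (e1.subset (diff_subset (t := {x}))).isClosed.isOpen_compl) ⟨n2, fun l => l.2 rfl⟩
    fun z hz l e => ?_)
  have nf : z ∉ frontier E := fun k => l.2 ⟨⟨k, l.1⟩, e⟩
  have hz' := dist_pos.2 e
  have f0 := fin _ (half_pos hz')
  have o1 : IsOpen (closedBall x (dist z x / 2))ᶜ := isClosed_closedBall.isOpen_compl
  have o2 : z ∈ (closedBall x (dist z x / 2))ᶜ := fun k => by
    rw [mem_closedBall] at k; linarith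
  constructor
  · intro k
    by_contra k'
    have zi : z ∈ interior E := by_contra fun m => nf ⟨subset_closure ((e2 z hz l.1).2 k), m⟩
    refine hK.inf (((n1.inter isOpen_interior).inter o1).inter hP.closed.isOpen_compl) hz
      ⟨⟨⟨l.1, zi⟩, o2⟩, k'⟩ (f0.subset fun t ht => ⟨⟨ht.1, ?_⟩, fun m => ?_⟩)
    · exact mem_symmDiff.2 (Or.inr ⟨(e2 t ht.1 ht.2.1.1.1).1 (interior_subset ht.2.1.1.2), ht.2.2⟩)
    · exact ht.2.1.2 (ball_subset_closedBall m)
  · intro k
    by_contra k'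
    have zi : z ∉ closure E := fun m => nf ⟨m, fun o => k' ((e2 z hz l.1).1 (interior_subset o))⟩
    have := hP.sub hK (Q := ∅) isClosed_empty ((n1.inter isClosed_closure.isOpen_compl).inter o1)
      (Ω := N ∩ (closure E)ᶜ ∩ (closedBall x (dist z x / 2))ᶜ)
      (f0.subset fun t ht => ⟨⟨ht.2.1, ?_⟩, fun m => ?_⟩)
    · exact this ⟨k, ⟨l.1, zi⟩, o2⟩
    · exact mem_symmDiff.2 (Or.inl ⟨ht.1.1, fun m =>
        ht.2.2.1.2 (subset_closure ((e2 t ht.2.1 ht.2.2.1.1).2 m))⟩)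
    · exact ht.2.2.2 (ball_subset_closedBall m)

end Pool.Agent.H.MP_77b145_gt
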