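import Pool.Agent.H.MP_77b145_gt.F

set_option autoImplicit false
open Set Metric Topology Filter

namespace Pool.Agent.H.MP_77b145_gt

variable {X : Type} [MetricSpace X]

def Cn (K E : Set X) : Prop :=
  Gd K E ∧ ∀ z ∈ E, ∃ A, A ⊆ E ∧ IsPreconnected A ∧ z ∈ A ∧ (A ∩ K).Nonempty

def Blk (K G P : Set X) : Prop :=
  (bd K P ∩ G).Nonempty ∨
    ∃ A, A ⊆ G ∧ IsPreconnected A ∧ (A ∩ (K ∩ P)).Nonempty ∧ (A ∩ (K \ P)).Nonempty

lemma Blk.mono {K G H P : Set X} (h : Blk K G P) (k : G ⊆ H) : Blk K H P := by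
  rcases h with h | ⟨A, h1, h2⟩
  · exact Or.inl (h.mono (inter_subset_inter_right _ k))
  · exact Or.inr ⟨A, h1.trans k, h2⟩

lemma Cn.union {K E F : Set X} (h : Cn K E) (k : Cn K F) : Cn K (E ∪ F) := by
  refine ⟨h.1.union k.1, ?_⟩
  rintro z (hz | hz)
  · obtain ⟨A, a1, a2⟩ := h.2 z hz
    exact ⟨A, a1.trans subset_union_left, a2⟩
  · obtain ⟨A, a1, a2⟩ := k.2 z hz
    exact ⟨A, a1.trans subset_union_right, a2⟩

lemma cn_empty (K : Set X) : Cn K ∅ :=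
  ⟨gd_off isClosed_empty (by simp), fun _ hz => hz.elim⟩

lemma bd_sub {K P : Set X} (hK : IsClosed K) : bd K P ⊆ K := fun _ hz =>
  hK.closure_subset_iff.2 inter_subset_left hz.1

lemma bd_congr {K P Q M : Set X} (hM : IsOpen M) {z : X} (hz : z ∈ M)
    (e : ∀ t ∈ M, t ∈ P ↔ t ∈ Q) (h : z ∈ bd K P) : z ∈ bd K Q :=
  ⟨closure_mono (s := M ∩ (K ∩ P)) (t := K ∩ Q) (fun t ht => ⟨ht.2.1, (e t ht.1).1 ht.2.2⟩)
      (hM.inter_closure ⟨hz, h.1⟩),
    closure_mono (s := M ∩ (K \ P)) (t := K \ Q)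
      (fun t ht => ⟨ht.2.1, fun l => ht.2.2 ((e t ht.1).2 l)⟩) (hM.inter_closure ⟨hz, h.2⟩)⟩

lemma Nul.far (hN : Nul X) {G Z O : Set X} (hZ : Z ⊆ G) (hO : IsOpen O) {y : X} (hy : y ∈ O)
    (h1 : ∀ p ∈ Z, y ∉ closure (connectedComponentIn G p))
    (h2 : ∀ p ∈ Z, ∃ q ∈ closure (connectedComponentIn G p), q ∉ O) : y ∉ closure Z := by
  intro h
  obtain ⟨δ, hδ, hO'⟩ := Metric.isOpen_iff.1 hO y hy
  have h3 : y ∈ closure (ball y (δ / 2) ∩ Z) :=
    isOpen_ball.inter_closure ⟨mem_ball_self (half_pos hδ), h⟩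
  have h0 := hN.near (half_pos hδ) G _ (inter_subset_right.trans hZ) ?_ h3
  · obtain ⟨p, hp, h4⟩ := h0
    exact h1 p hp.2 h4
  · intro p hp
    obtain ⟨q, q1, q2⟩ := h2 p hp.2
    refine big_of_closure (mem_connectedComponentIn (hZ hp.2)) q1 ?_
    have : ¬ dist q y < δ := fun l => q2 (hO' l)
    have := dist_triangle_left q y p
    have := mem_ball.1 hp.1
    linarith

lemma Nul.limit [CompactSpace X] [ConnectedSpace X] [LocallyConnectedSpace X] (hN : Nul X)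
    {K E P B : Set X} (hK : Ker K) (hE : Gd K E) {x : X} (hx : x ∈ K) (hB : IsOpen B) (hxB : x ∈ B)
    (h1 : ∀ z ∈ B, z ≠ x → z ∉ bd K P) (h2 : ∀ z ∈ B, z ≠ x → z ∈ K → z ∉ E)
    (h3 : ∀ A, Cn K A → IsPreconnected A → Disjoint A E → ∀ a ∈ A ∩ (K ∩ P), ∀ b ∈ A ∩ (K \ P),
      a ∈ B → b ∈ B → a ≠ x → b ≠ x → False) : nT K P x := by
  have hKc := hK.cpt.isClosed
  have hG : IsOpen (B \ (K ∪ E)) := hB.sdiff (hKc.union hE.1)
  generalize hGe : B \ (K ∪ E) = G at hG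
  have mG : ∀ z, z ∈ G ↔ z ∈ B ∧ z ∉ K ∧ z ∉ E := fun z => by
    rw [← hGe, mem_diff, mem_union, not_or]
  have GK : ∀ p, Disjoint (connectedComponentIn G p) K := fun p =>
    Set.disjoint_left.2 fun z hz => ((mG z).1 (connectedComponentIn_subset _ _ hz)).2.1
  have oo : ∀ S : Set X, IsOpen (B ∩ Eᶜ ∩ {x}ᶜ ∩ (closure S)ᶜ) := fun S =>
    ((hB.inter hE.1.isOpen_compl).inter isOpen_compl_singleton).inter isClosed_closure.isOpen_compl
  have fo : ∀ (S : Set X) p,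
      frontier (connectedComponentIn G p) ∩ (B ∩ Eᶜ ∩ {x}ᶜ ∩ (closure S)ᶜ) ⊆ K := by
    intro S p z hz
    have := fr_cc hG p hz.1
    rw [hG.frontier_eq] at this
    exact by_contra fun l => this.2 ((mG z).2 ⟨hz.2.1.1.1, l, hz.2.1.1.2⟩)
  have o1 : ∀ y ∈ B, y ≠ x → y ∈ K ∩ P → y ∈ B ∩ Eᶜ ∩ {x}ᶜ ∩ (closure (K \ P))ᶜ :=
    fun y hy e k => ⟨⟨⟨hy, h2 y hy e k.1⟩, e⟩, fun l => h1 y hy e ⟨subset_closure k, l⟩⟩
  have o2 : ∀ y ∈ B, y ≠ x → y ∈ K \ P → y ∈ B ∩ Eᶜ ∩ {x}ᶜ ∩ (closure (K ∩ P))ᶜ :=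
    fun y hy e k => ⟨⟨⟨hy, h2 y hy e k.1⟩, e⟩, fun l => h1 y hy e ⟨l, subset_closure k⟩⟩
  have st2 : ∀ p, ∀ a ∈ closure (connectedComponentIn G p), ∀ b ∈ closure (connectedComponentIn G p),
      a ∈ B → a ≠ x → a ∈ K ∩ P → b ∈ B → b ≠ x → b ∈ K \ P → False := by
    intro p a ha b hb a1 a2 a3 b1 b2 b3
    obtain ⟨y, hy, A, c1, c2, c3, c4, s, c5⟩ := hN.ray hK (hG.connectedComponentIn (x := p))
      isPreconnected_connectedComponentIn (GK p) (oo _) (fo _ p) ⟨a3.1, o1 a a1 a2 a3⟩ ha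
    obtain ⟨z, hz, D, d1, d2, d3, d4, t, d5⟩ := hN.ray hK (hG.connectedComponentIn (x := p))
      isPreconnected_connectedComponentIn (GK p) (oo _) (fo _ p) ⟨b3.1, o2 b b1 b2 b3⟩ hb
    obtain ⟨C, e1, e2, e3, e4, e5⟩ := join (hG.connectedComponentIn (x := p))
      isPreconnected_connectedComponentIn c5.2 d5.2
    have hc : IsPreconnected (A ∪ C ∪ D) := (c2.union s c5.1 e4 e3).union t (Or.inr e5) d5.1 d2
    have nE : ∀ w ∈ connectedComponentIn G p, w ∉ E := fun w hw =>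
      ((mG w).1 (connectedComponentIn_subset _ _ hw)).2.2
    refine h3 (A ∪ C ∪ D) ⟨(c1.union (gd_off e2.isClosed ((GK p).mono_left e1))).union d1,
      fun w hw => ⟨_, subset_rfl, hc, hw, y, Or.inl (Or.inl c3), hy.1⟩⟩ hc ?_ y
      ⟨Or.inl (Or.inl c3), hy.1, by_contra fun l => hy.2.2 (subset_closure ⟨hy.1, l⟩)⟩ z
      ⟨Or.inr d3, hz.1, fun l => hz.2.2 (subset_closure ⟨hz.1, l⟩)⟩ hy.2.1.1.1 hz.2.1.1.1
      hy.2.1.2 hz.2.1.2
    rw [Set.disjoint_left]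
    rintro w ((hw | hw) | hw)
    · rcases c4 hw with l | l
      · exact nE w l
      · rw [show w = y from l]; exact hy.2.1.1.2
    · exact nE w (e1 hw)
    · rcases d4 hw with l | l
      · exact nE w l
      · rw [show w = z from l]; exact hz.2.1.1.2
  let φ : X → Prop := fun p => ∃ a ∈ closure (connectedComponentIn G p), a ∈ B ∧ a ≠ x ∧ a ∈ K ∩ P
  have opn : ∀ (S : Set X) (ψ : Prop → Prop), (∀ y ∈ B, y ≠ x → y ∈ K ∩ S →
      y ∈ B ∩ Eᶜ ∩ {x}ᶜ ∩ (closure (K \ S))ᶜ ∧ y ∉ closure {p | p ∈ G ∧ ¬ ψ (φ p)}) →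
      IsOpen {z | (z ∈ B ∧ z ≠ x ∧ z ∈ K ∩ S) ∨ (z ∈ G ∧ ψ (φ z))} := by
    intro S ψ h
    rw [isOpen_iff_forall_mem_open]
    rintro y (⟨y1, y2, y3⟩ | ⟨y1, y2⟩)
    · refine ⟨_, fun z hz => ?_, (oo (K \ S)).inter isClosed_closure.isOpen_compl, h y y1 y2 y3⟩
      by_cases c : z ∈ K
      · exact Or.inl ⟨hz.1.1.1.1, hz.1.1.2, c, by_contra fun l => hz.1.2 (subset_closure ⟨c, l⟩)⟩
      · have zG := (mG z).2 ⟨hz.1.1.1.1, c, hz.1.1.1.2⟩
        exact Or.inr ⟨zG, by_contra fun l => hz.2 (subset_closure ⟨zG, l⟩)⟩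
    · refine ⟨_, fun z hz => Or.inr ⟨connectedComponentIn_subset _ _ hz, ?_⟩,
        hG.connectedComponentIn (x := y), mem_connectedComponentIn y1⟩
      have : φ z = φ y := by simp only [φ, connectedComponentIn_eq hz]
      rw [this]; exact y2
  refine hE.sep hKc hx hB hxB (opn P id fun y y1 y2 y3 => ⟨o1 y y1 y2 y3, ?_⟩)
    (opn Pᶜ Not fun y y1 y2 y3 => ⟨by rw [diff_compl]; exact o2 y y1 y2 y3, ?_⟩) ?_ ?_
    (fun z z1 z2 z3 => Or.inl ⟨z1, z3, z2⟩) (fun z z1 z2 z3 => Or.inl ⟨z1, z3, z2⟩)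
  · refine hN.far (G := G) (fun p hp => hp.1) (oo _) (o1 y y1 y2 y3)
      (fun p hp l => hp.2 ⟨y, l, y1, y2, y3⟩) fun p hp => ?_
    obtain ⟨q, -, hq⟩ := exists_fr isPreconnected_univ (hG.connectedComponentIn (x := p))
      (mem_univ p) (mem_connectedComponentIn hp.1) (mem_univ y) ((GK p).notMem_of_mem_right y3.1)
    refine ⟨q, hq.1, fun l => hp.2 ⟨q, hq.1, l.1.1.1, l.1.2, ?_⟩⟩
    have qK := fo _ p ⟨hq, l⟩
    exact ⟨qK, by_contra fun m => l.2 (subset_closure ⟨qK, m⟩)⟩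
  · refine hN.far (G := G) (fun p hp => hp.1) (oo _) (o2 y y1 y2 y3) (fun p hp l => ?_)
      fun p hp => ?_
    · obtain ⟨a, a0, a1, a2, a3⟩ := not_not.1 hp.2
      exact st2 p a a0 y l a1 a2 a3 y1 y2 y3
    · obtain ⟨a, a0, -, -, a3⟩ := not_not.1 hp.2
      exact ⟨a, a0, fun l => l.2 (subset_closure a3)⟩
  · rw [Set.disjoint_left]
    rintro z (⟨-, -, l⟩ | ⟨l, l'⟩) (⟨-, -, m⟩ | ⟨m, m'⟩)
    · exact m.2 l.2
    · exact ((mG z).1 m).2.1 l.1
    · exact ((mG z).1 l).2.1 m.1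
    · exact m' l'
  · intro z z1 z2 z3
    by_cases c : z ∈ K
    · by_cases d : z ∈ P
      · exact Or.inl (Or.inl ⟨z1, z3, c, d⟩)
      · exact Or.inr (Or.inl ⟨z1, z3, c, d⟩)
    · by_cases d : φ z
      · exact Or.inl (Or.inr ⟨(mG z).2 ⟨z1, c, z2⟩, d⟩)
      · exact Or.inr (Or.inr ⟨(mG z).2 ⟨z1, c, z2⟩, d⟩)

lemma Nul.pl1 [CompactSpace X] [ConnectedSpace X] [LocallyConnectedSpace X] (hN : Nul X)
    {K E : Set X} (hK : Ker K) (hE : Gd K E) {x c : X} {r : ℝ} (hr : 0 < r) (hx : x ∈ K)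
    (hc : x ∈ closedBall c r) : ∃ ρ > 0, ∃ F, Cn K F ∧ Disjoint F E ∧
      ∀ P y, Cls K c r P y → y ∈ ball x ρ → Blk K F P := by
  by_contra hn
  push Not at hn
  let I := {p : ℝ × Set X // 0 < p.1 ∧ Cn K p.2 ∧ Disjoint p.2 E}
  let S : I → Set (Set X) := fun i => {P | ∃ y, Cls K c r P y ∧ y ∈ ball x i.1.1 ∧ ¬ Blk K i.1.2 P}
  have nb : (⨅ i, 𝓟 (S i)).NeBot := by
    refine iInf_neBot_of_directed (fun i j => ?_) fun i => ?_
    · refine ⟨⟨(min i.1.1 j.1.1, i.1.2 ∪ j.1.2), lt_min i.2.1 j.2.1, i.2.2.1.union j.2.2.1,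
        i.2.2.2.union_left j.2.2.2⟩, principal_mono.2 ?_, principal_mono.2 ?_⟩
      · rintro P ⟨y, h1, h2, h3⟩
        exact ⟨y, h1, ball_subset_ball (min_le_left _ _) h2, fun l => h3 (l.mono subset_union_left)⟩
      · rintro P ⟨y, h1, h2, h3⟩
        exact ⟨y, h1, ball_subset_ball (min_le_right _ _) h2,
          fun l => h3 (l.mono subset_union_right)⟩
    · obtain ⟨P, y, h⟩ := hn i.1.1 i.2.1 i.1.2 i.2.2.1 i.2.2.2
      exact principal_neBot_iff.2 ⟨P, y, h⟩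
  let W := Ultrafilter.of (⨅ i, 𝓟 (S i))
  have hW : ∀ i, S i ∈ W := fun i =>
    Ultrafilter.of_le (⨅ i, 𝓟 (S i)) (mem_iInf_of_mem i (mem_principal_self _))
  have star : ∀ ρ > 0, ∀ F, Cn K F → Disjoint F E → ∃ P y, Cls K c r P y ∧ y ∈ ball x (ρ / 2) ∧
      ¬ Blk K F P ∧ ∀ z ∈ ball x r \ closedBall x ρ, (z ∈ P ↔ {Q | z ∈ Q} ∈ W) := by
    intro ρ hρ F f1 f2
    have h1 := hW ⟨(ρ / 2, F), half_pos hρ, f1, f2⟩
    have h2 := (Ultrafilter.finite_biUnion_mem_iff (f := W)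
      (s := fun t => {P | t = P ∩ (ball x r \ closedBall x ρ)}) (hN.ts hK hx hρ hr)).1
      (mem_of_superset h1 (by
        rintro P ⟨y, y1, y2, -⟩
        refine mem_biUnion (x := P ∩ (ball x r \ closedBall x ρ)) ⟨P, y1.1, ?_, rfl⟩ rfl
        intro z z1 z2
        refine y1.2.2.1 z ?_ ?_
        · have := dist_triangle z x c
          rw [mem_ball] at *
          rw [mem_closedBall] at hc
          linarith
        · rintro rfl
          exact absurd (mem_ball.1 y2) (not_lt.2 z2.le)))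
    obtain ⟨t, -, h3⟩ := h2
    obtain ⟨P, ⟨y, y1, y2, y3⟩, hP⟩ := W.nonempty_of_mem (inter_mem h1 h3)
    refine ⟨P, y, y1, y2, y3, fun z hz => ⟨fun k => mem_of_superset h3 fun Q hQ => ?_, fun k => ?_⟩⟩
    · have : z ∈ t := by rw [show t = _ from hP]; exact ⟨k, hz⟩
      rw [show t = _ from hQ] at this
      exact this.1
    · obtain ⟨Q, q1, q2⟩ := W.nonempty_of_mem (inter_mem k h3)
      have : z ∈ t := by rw [show t = _ from q2]; exact ⟨q1, hz⟩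
      rw [show t = _ from hP] at this
      exact this.1
  generalize hP0 : {z | {Q | z ∈ Q} ∈ W} = P0
  have star' : ∀ ρ > 0, ∀ F, Cn K F → Disjoint F E → ∃ P y, Cls K c r P y ∧ y ∈ ball x (ρ / 2) ∧
      ¬ Blk K F P ∧ ∀ z ∈ ball x r \ closedBall x ρ, (z ∈ P ↔ z ∈ P0) := by
    rw [← hP0]; exact star
  clear star hP0 hW
  have hΩ : ∀ ρ, IsOpen (ball x r \ closedBall x ρ) := fun ρ =>
    isOpen_ball.sdiff isClosed_closedBall
  have mΩ : ∀ z ∈ ball x r, ∀ ρ, ρ < dist z x → z ∈ ball x r \ closedBall x ρ := fun z hz ρ h =>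
    ⟨hz, fun l => absurd (mem_closedBall.1 l) (not_le.2 h)⟩
  have hB : IsOpen (ball x r ∩ ((E ∩ K) \ {x})ᶜ) :=
    isOpen_ball.inter (hE.2.1.subset diff_subset).isClosed.isOpen_compl
  have h2 : ∀ z ∈ ball x r ∩ ((E ∩ K) \ {x})ᶜ, z ≠ x → z ∈ K → z ∉ E :=
    fun z hz e k l => hz.2 ⟨⟨l, k⟩, e⟩
  have hT : nT K P0 x := by
    refine hN.limit hK hE hx hB ⟨mem_ball_self hr, fun l => l.2 rfl⟩ (fun z hz e l => ?_) h2 ?_
    · have zK := bd_sub hK.cpt.isClosed l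
      have hd := dist_pos.2 e
      obtain ⟨P, y, -, -, p3, p4⟩ := star' _ (half_pos hd) {z}
        ⟨gd_pt K z, fun w hw => ⟨_, subset_rfl, isPreconnected_singleton, hw, z, rfl, zK⟩⟩
        (disjoint_singleton_left.2 (h2 z hz e zK))
      exact p3 (Or.inl ⟨z, bd_congr (hΩ _) (mΩ z hz.1 _ (half_lt_self hd))
        (fun t ht => (p4 t ht).symm) l, rfl⟩)
    · intro A a1 a2 a3 a ha b hb a4 b4 a5 b5
      have da := dist_pos.2 a5
      have db := dist_pos.2 b5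
      obtain ⟨P, y, -, -, p3, p4⟩ := star' _ (half_pos (lt_min da db)) A a1 a3
      have := min_le_left (dist a x) (dist b x)
      have := min_le_right (dist a x) (dist b x)
      exact p3 (Or.inr ⟨A, subset_rfl, a2,
        ⟨a, ha.1, ha.2.1, (p4 a (mΩ a a4.1 _ (by linarith))).2 ha.2.2⟩,
        ⟨b, hb.1, hb.2.1, fun l => hb.2.2 ((p4 b (mΩ b b4.1 _ (by linarith))).1 l)⟩⟩)
  obtain ⟨η, hη, hη'⟩ := Metric.isOpen_iff.1 (nT.isOpen K P0) x hT
  have hm := lt_min hη hr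
  have m1 := min_le_left η r
  have m2 := min_le_right η r
  generalize min η r = m at hm m1 m2
  obtain ⟨P, y, p1, p2, -, p4⟩ := star' (m / 4) (by linarith) ∅ (cn_empty K) (by simp)
  refine p1.2.2.2 ⟨(P \ ball x (m / 2)) ∪ (P0 ∩ ball x (m / 2)), fun z hz => ?_, fun z hz => ?_⟩
  · have : z ∉ ball x (m / 2) := fun l => hz (by
      have := dist_triangle z x c
      rw [mem_ball] at *
      rw [mem_closedBall] at hc
      linarith)
    simp [this]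
  · by_cases k : z ∈ ball x m
    · refine nT.congr (P := P0) (hη' (ball_subset_ball m1 k)) isOpen_ball k fun t _ l _ => ?_
      by_cases o : t ∈ ball x (m / 2)
      · simp only [mem_union, mem_diff, mem_inter_iff, o]
        tauto
      · have := p4 t (mΩ t (ball_subset_ball m2 l) _ (by rw [mem_ball, not_lt] at o; linarith))
        simp only [mem_union, mem_diff, mem_inter_iff, o]
        tauto
    · rw [mem_ball, not_lt] at k
      refine nT.congr (p1.2.2.1 z hz ?_) (isClosed_closedBall (x := x) (ε := m / 2)).isOpen_compl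
        (fun l => by rw [mem_closedBall] at l; linarith) fun t _ l _ => ?_
      · rintro rfl
        rw [mem_ball] at p2
        linarith
      · have o : t ∉ ball x (m / 2) := fun o => l (ball_subset_closedBall o)
        simp only [mem_union, mem_diff, mem_inter_iff, o]
        tauto

lemma Nul.pl [CompactSpace X] [ConnectedSpace X] [LocallyConnectedSpace X] (hN : Nul X)
    {K E : Set X} (hK : Ker K) (hE : Gd K E) (c : X) {r : ℝ} (hr : 0 < r) :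
    ∃ F, Cn K F ∧ Disjoint F E ∧ ∀ P y, Cls K c r P y → Blk K F P := by
  suffices ∃ F, Cn K F ∧ Disjoint F E ∧ ∀ P y, Cls K c r P y → y ∈ closedBall c r → Blk K F P by
    obtain ⟨F, f1, f2, f3⟩ := this
    exact ⟨F, f1, f2, fun P y h => f3 P y h (ball_subset_closedBall h.2.1)⟩
  refine (isClosed_closedBall (x := c) (ε := r)).isCompact.induction_on
    (p := fun s => ∃ F, Cn K F ∧ Disjoint F E ∧ ∀ P y, Cls K c r P y → y ∈ s → Blk K F P)
    ⟨∅, cn_empty K, by simp, fun _ _ _ h => h.elim⟩ ?_ ?_ ?_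
  · rintro s t hst ⟨F, f1, f2, f3⟩
    exact ⟨F, f1, f2, fun P y h k => f3 P y h (hst k)⟩
  · rintro s t ⟨F, f1, f2, f3⟩ ⟨G, g1, g2, g3⟩
    refine ⟨F ∪ G, f1.union g1, f2.union_left g2, fun P y h k => ?_⟩
    rcases k with k | k
    · exact (f3 P y h k).mono subset_union_left
    · exact (g3 P y h k).mono subset_union_right
  · intro x hx
    by_cases k : x ∈ K
    · obtain ⟨ρ, hρ, h⟩ := hN.pl1 hK hE hr k hx
      exact ⟨ball x ρ, nhdsWithin_le_nhds (ball_mem_nhds x hρ), h⟩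
    · refine ⟨Kᶜ, nhdsWithin_le_nhds (hK.cpt.isClosed.isOpen_compl.mem_nhds k), ∅, cn_empty K,
        by simp, fun P y h l => (h.2.2.2 ⟨P, fun _ _ => Iff.rfl, fun z hz => ?_⟩).elim⟩
      by_cases e : z = y
      · rw [e]; exact nT_of_bd fun m => l (bd_sub hK.cpt.isClosed m)
      · exact h.2.2.1 z hz e

end Pool.Agent.H.MP_77b145_gt
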