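import Pool.Agent.H.MP_77b145_gt.G

set_option autoImplicit false
open Set Metric Topology Filter

namespace Pool.Agent.H.MP_77b145_gt

open Cardinal in
lemma inj_choice {ι Y : Type} (A : ι → Set Y) (h : ∀ i, #ι ≤ #(A i)) :
    ∃ f : ι → Y, Function.Injective f ∧ ∀ i, f i ∈ A i := by
  obtain ⟨_, _, ho⟩ := Cardinal.exists_ord_eq_type_lt ι
  have st : ∀ (i : ι) (g : ∀ j, j < i → Y), ∃ y ∈ A i, ∀ j hj, g j hj ≠ y := by
    intro i g
    by_contra k
    push Not at k
    have h1 : A i ⊆ range fun j : Iio i => g j.1 j.2 := fun y hy => by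
      obtain ⟨j, hj, e⟩ := k y hy
      exact ⟨⟨j, hj⟩, e⟩
    exact absurd (((h i).trans (mk_le_mk_of_subset h1)).trans mk_range_le)
      (not_le.2 (Cardinal.mk_Iio_lt i ho))
  choose s s1 s2 using st
  let f : ι → Y := wellFounded_lt.fix s
  have hf : ∀ i, f i = s i fun j _ => f j := fun i => wellFounded_lt.fix_eq s i
  refine ⟨f, fun i j e => ?_, fun i => by rw [hf]; exact s1 _ _⟩
  rcases lt_trichotomy i j with k | k | k
  · exact absurd (e.trans (hf j)) (s2 j (fun l _ => f l) i k)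
  · exact k
  · exact absurd (e.symm.trans (hf i)) (s2 i (fun l _ => f l) j k)

variable {X : Type} [MetricSpace X]

open Cardinal in
lemma bern [CompactSpace X] {Z : Set X} (hZ : Z.Countable) :
    ∃ f : {S : Set X // IsClosed S ∧ ¬ S.Countable} × ℕ → X, Function.Injective f ∧
      ∀ i, f i ∈ i.1.1 \ Z := by
  refine inj_choice (fun i : {S : Set X // IsClosed S ∧ ¬ S.Countable} × ℕ => i.1.1 \ Z) fun i => ?_
  have h1 : #{S : Set X // IsClosed S ∧ ¬ S.Countable} ≤ 𝔠 := by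
    obtain ⟨b, hb, -, hb'⟩ := TopologicalSpace.exists_countable_basis X
    have := hb.to_subtype
    refine (mk_le_of_injective (f := fun S : {S : Set X // IsClosed S ∧ ¬ S.Countable} =>
      {v : b | v.1 ⊆ S.1ᶜ}) ?_).trans ?_
    · have aux : ∀ S T : {S : Set X // IsClosed S ∧ ¬ S.Countable},
          {v : b | v.1 ⊆ S.1ᶜ} = {v : b | v.1 ⊆ T.1ᶜ} → T.1 ⊆ S.1 := by
        intro S T e z hz
        by_contra k
        obtain ⟨v, v1, v2, v3⟩ := hb'.exists_subset_of_mem_open (u := S.1ᶜ) k S.2.1.isOpen_compl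
        have : (⟨v, v1⟩ : b) ∈ {v : b | v.1 ⊆ T.1ᶜ} := by rw [← e]; exact v3
        exact this v2 hz
      exact fun S T e => Subtype.ext (Subset.antisymm (aux T S e.symm) (aux S T e))
    · rw [mk_set, ← two_power_aleph0]
      exact power_le_power_left two_ne_zero mk_le_aleph0
  have h2 : 𝔠 ≤ #(i.1.1) := by
    obtain ⟨g, g1, -, g2⟩ := i.1.2.1.exists_nat_bool_injection_of_not_countable i.1.2.2
    refine le_trans ?_ (mk_le_mk_of_subset g1)
    rw [mk_range_eq g g2]
    simp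
  have h3 : 𝔠 ≤ #(↥(i.1.1 \ Z)) := by
    by_contra k
    have := le_mk_diff_add_mk i.1.1 Z
    exact absurd (h2.trans this) (not_le.2 (add_lt_of_lt aleph0_le_continuum (not_le.1 k)
      ((le_aleph0_iff_set_countable.2 hZ).trans_lt aleph0_lt_continuum)))
  refine le_trans ?_ h3
  rw [mk_prod, lift_id, lift_id, mk_nat]
  exact (mul_le_mul_left h1 _).trans (by simp)

lemma isol [CompactSpace X] {T : Set X} (h1 : IsClosed T) (h2 : T.Countable) (h3 : T.Nonempty) :
    ∃ x ∈ T, ∃ R > 0, ∀ z ∈ ball x R, z ≠ x → z ∉ T := by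
  by_contra h
  push Not at h
  have hp : Perfect T := ⟨h1, preperfect_iff_nhds.2 fun x hx U hU => by
    obtain ⟨R, hR, k⟩ := Metric.mem_nhds_iff.1 hU
    obtain ⟨z, z1, z2, z3⟩ := h x hx R hR
    exact ⟨z, ⟨k z1, z3⟩, z2⟩⟩
  obtain ⟨g, g1, -, g2⟩ := hp.exists_nat_bool_injection h3
  have h0 : Cardinal.mk (ℕ → Bool) = Cardinal.continuum := by simp
  have := (h2.mono g1).to_subtype
  have h4 : Countable (ℕ → Bool) :=
    Function.Injective.countable (f := fun a => (⟨g a, a, rfl⟩ : range g))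
      fun a b e => g2 (congrArg Subtype.val e)
  have h5 := Cardinal.mk_le_aleph0_iff.2 h4
  rw [h0] at h5
  exact absurd h5 (not_le.2 Cardinal.aleph0_lt_continuum)

lemma Nul.noker [CompactSpace X] [ConnectedSpace X] (hN : Nul X) {K : Set X} (hK : Ker K) :
    False := by
  have := hN.locallyConnected
  have hKc := hK.cpt.isClosed
  obtain ⟨q, hq⟩ := TopologicalSpace.exists_dense_seq X
  obtain ⟨e, he⟩ := exists_surjective_nat (ℕ × ℕ × ℕ)
  have nx := fun (n : ℕ) (s : {s : Set X // Gd K s}) =>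
    hN.pl hK s.2 (q (e n).1) (r := 1 / ((e n).2.1 + 1)) (by positivity)
  choose F f1 f2 f3 using nx
  let d : ℕ → {s : Set X // Gd K s} := fun n =>
    Nat.rec ⟨∅, (cn_empty K).1⟩ (fun n s => ⟨s.1 ∪ F n s, s.2.union (f1 n s).1⟩) n
  have dm : Monotone fun n => (d n).1 := monotone_nat_of_le_succ fun n => subset_union_left
  have dj : ∀ n m, n < m → Disjoint (F n (d n)) (F m (d m)) := fun n m h =>
    ((f2 m (d m)).mono_right (subset_union_right.trans (dm (Nat.succ_le_of_lt h)))).symm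
  obtain ⟨f, fi, hf⟩ := bern (Z := ⋃ n, F n (d n) ∩ K)
    (countable_iUnion fun n => (f1 n (d n)).1.2.1.countable)
  let C : ℕ → Set X := fun i =>
    {z | (∃ S, S.1 ⊆ K ∧ z = f (S, i)) ∨ ∃ n, (e n).2.2 = i ∧ z ∈ F n (d n)}
  have hit : ∀ i S, IsClosed S → ¬ (K ∩ S).Countable → ∃ z ∈ C i, z ∈ S := fun i S h1 h2 =>
    ⟨_, Or.inl ⟨⟨K ∩ S, hKc.inter h1, h2⟩, inter_subset_left, rfl⟩,
      (hf (⟨K ∩ S, hKc.inter h1, h2⟩, i)).1.2⟩
  obtain ⟨a, ha, b, hb, hab⟩ := hK.two
  have hd : 0 < dist a b / 3 := by have := dist_pos.2 hab; linarith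
  refine hN _ hd C (fun i => ?_) ?_ fun i => ?_
  · rw [isPreconnected_iff_subset_of_disjoint]
    intro u v hu hv h1 h2
    by_contra h3
    have hs : Disjoint (𝓝ˢ (C i ∩ u)) (𝓝ˢ (C i ∩ v)) := by
      have aux : ∀ u v : Set X, IsOpen v → C i ∩ (u ∩ v) = ∅ →
          Disjoint (closure (C i ∩ u)) (C i ∩ v) := by
        intro u v hv h2
        refine Disjoint.mono_right inter_subset_right (Disjoint.closure_left ?_ hv)
        rw [Set.disjoint_left]
        intro z z1 z2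
        have : z ∈ C i ∩ (u ∩ v) := ⟨z1.1, z1.2, z2⟩
        rw [h2] at this
        exact this
      exact completely_normal (aux u v hv h2) (aux v u hu (by rwa [inter_comm v])).symm
    obtain ⟨U, W, hU, hW, u1, w1, hUW⟩ := separatedNhds_iff_disjoint.2 hs
    have cov : C i ⊆ U ∪ W := fun z hz => (h1 hz).imp (fun l => u1 ⟨hz, l⟩) (fun l => w1 ⟨hz, l⟩)
    have meet : ∀ U W : Set X, IsOpen U → IsOpen W → Disjoint U W → C i ⊆ U ∪ W →
        ∀ z ∈ C i, z ∈ U → ∃ y ∈ K, y ∈ U := by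
      rintro U W hU hW hUW cov z (⟨S, s1, rfl⟩ | ⟨n, n1, n2⟩) hz
      · exact ⟨_, s1 (hf (S, i)).1, hz⟩
      · obtain ⟨A, a1, a2, a3, y, a4⟩ := (f1 n (d n)).2 z n2
        exact ⟨y, a4.2, a2.subset_left_of_subset_union hU hW hUW
          (fun t ht => cov (Or.inr ⟨n, n1, a1 ht⟩)) ⟨z, a3, hz⟩ a4.1⟩
    rw [not_or, not_subset, not_subset] at h3
    obtain ⟨⟨s, s1, s2⟩, t, t1, t2⟩ := h3
    obtain ⟨y, y1, y2⟩ := meet U W hU hW hUW cov t t1 (u1 ⟨t1, (h1 t1).resolve_right t2⟩)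
    obtain ⟨z, z1, z2⟩ := meet W U hW hU hUW.symm (by rwa [union_comm]) s s1
      (w1 ⟨s1, (h1 s1).resolve_left s2⟩)
    have hc : (K ∩ (U ∪ W)ᶜ).Countable := by
      by_contra k
      obtain ⟨w, l1, l2⟩ := hit i _ (hU.union hW).isClosed_compl k
      exact l2 (cov l1)
    have PW : ∀ w ∈ closure (K ∩ U), w ∉ W := fun w hw =>
      (hUW.closure_left hW).notMem_of_mem_left (closure_mono inter_subset_right hw)
    have bS : bd K (closure (K ∩ U)) ⊆ (U ∪ W)ᶜ := by
      rintro w hw (l | l)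
      · obtain ⟨p, p1, p2⟩ := _root_.mem_closure_iff.1 hw.2 U hU l
        exact p2.2 (subset_closure ⟨p2.1, p1⟩)
      · exact PW w (isClosed_closure.closure_subset_iff.2 inter_subset_right hw.1) l
    have hT : ∀ w, ¬ nT K (closure (K ∩ U)) w → w ∈ bd K (closure (K ∩ U)) := fun w hw =>
      by_contra fun l => hw (nT_of_bd l)
    obtain ⟨x, x1, R, hR, x2⟩ := isol (nT.isOpen K (closure (K ∩ U))).isClosed_compl
      (hc.mono fun w hw => mem_inter (bd_sub hKc (hT w hw)) (bS (hT w hw))) (by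
        by_contra k
        rcases hK.glob (P := closure (K ∩ U)) (fun w => by_contra fun l => k ⟨w, l⟩) with l | l
        · exact hK.inf hU y1 y2 (l.subset fun w hw => ⟨hw.1, subset_closure hw⟩)
        · exact hK.inf hW z1 z2 (l.subset fun w hw => ⟨hw.1, fun m => PW w m hw.2⟩))
    obtain ⟨j, m, hjm⟩ := hK.ne ⟨U, hU, rfl⟩ (bd_sub hKc (hT x x1)) x1 hR
      (fun w w1 w2 => not_not.1 (x2 w w1 w2)) hq
    obtain ⟨n, hn⟩ := he (j, m, i)
    have sub : F n (d n) ⊆ C i := fun w hw => Or.inr ⟨n, by rw [hn], hw⟩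
    rcases f3 n (d n) _ x (by rw [hn]; exact hjm) with ⟨w, l1, l2⟩ | ⟨A, a1, a2, ⟨p, p1⟩, w, w2⟩
    · exact bS l1 (cov (sub l2))
    · rcases a2.subset_or_subset hU hW hUW (a1.trans (sub.trans cov)) with l | l
      · exact w2.2.2 (subset_closure ⟨w2.2.1, l w2.1⟩)
      · exact PW p p1.2.2 (l p1.1)
  · intro i j hij
    rw [Set.disjoint_left]
    rintro z (⟨S, s1, rfl⟩ | ⟨n, n1, n2⟩) (⟨T, t1, t2⟩ | ⟨m, m1, m2⟩)
    · exact hij (congrArg Prod.snd (fi t2))
    · exact (hf _).2 (mem_iUnion.2 ⟨m, m2, s1 (hf (S, i)).1⟩)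
    · rw [t2] at n2
      exact (hf _).2 (mem_iUnion.2 ⟨n, n2, t1 (hf (T, j)).1⟩)
    · rcases lt_trichotomy n m with k | k | k
      · exact (dj n m k).notMem_of_mem_left n2 m2
      · exact hij (by rw [← n1, ← m1, k])
      · exact (dj m n k).notMem_of_mem_left m2 n2
  · obtain ⟨s, s1, s2⟩ := hit i (closedBall a (dist a b / 3)) isClosed_closedBall fun k =>
      hK.unc isOpen_ball ha (mem_ball_self hd) (k.mono (inter_subset_inter_right _ ball_subset_closedBall))
    obtain ⟨t, t1, t2⟩ := hit i (closedBall b (dist a b / 3)) isClosed_closedBall fun k =>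
      hK.unc isOpen_ball hb (mem_ball_self hd) (k.mono (inter_subset_inter_right _ ball_subset_closedBall))
    refine ⟨s, s1, t, t1, ?_⟩
    have := dist_triangle4 a s t b
    rw [mem_closedBall] at s2 t2
    rw [dist_comm a s] at this
    linarith

lemma nul_of_reg [CompactSpace X] (h : ∀ x : X, ∀ U : Set X, IsOpen U → x ∈ U →
    ∃ V : Set X, IsOpen V ∧ x ∈ V ∧ V ⊆ U ∧ (frontier V).Finite) : Nul X := by
  intro δ hδ A h1 h2 h3
  have := fun x => h x (ball x (δ / 2)) isOpen_ball (mem_ball_self (half_pos hδ))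
  choose V v1 v2 v3 v4 using this
  obtain ⟨t, ht⟩ := isCompact_univ.elim_finite_subcover V v1 fun x _ => mem_iUnion.2 ⟨x, v2 x⟩
  have : ∀ n, ∃ z ∈ A n, z ∈ ⋃ x ∈ (t : Set X), frontier (V x) := by
    intro n
    obtain ⟨a, ha, b, hb, k⟩ := h3 n
    obtain ⟨x, x1, x2⟩ := mem_iUnion₂.1 (ht (mem_univ a))
    obtain ⟨z, z1, z2⟩ := exists_fr (h1 n) (v1 x) ha x2 hb fun l => by
      have := mem_ball.1 (v3 x x2)
      have := mem_ball.1 (v3 x l)
      have := dist_triangle_right a b x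
      linarith
    exact ⟨z, z1, mem_biUnion x1 z2⟩
  choose g g1 g2 using this
  refine infinite_of_injective_forall_mem (f := g) (fun i j e => by_contra fun k => ?_) g2
    (t.finite_toSet.biUnion fun x _ => v4 x)
  exact (h2 k).notMem_of_mem_left (g1 i) (e ▸ g1 j)

theorem main (X : Type) [MetricSpace X] [CompactSpace X] [ConnectedSpace X] :
    ((∀ x : X, ∀ U : Set X, IsOpen U → x ∈ U →
        ∃ V : Set X, IsOpen V ∧ x ∈ V ∧ V ⊆ U ∧ (frontier V).Finite) ↔
      (∀ A : ℕ → Set X, (∀ n, IsConnected (A n)) →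
        Pairwise (fun i j => Disjoint (A i) (A j)) →
        Filter.Tendsto (fun n => Metric.diam (A n)) Filter.atTop (nhds 0))) := by
  constructor
  · intro h A h1 h2
    rw [tendsto_order]
    refine ⟨fun a ha => Eventually.of_forall fun n => ha.trans_le diam_nonneg, fun ε hε => ?_⟩
    by_contra k
    obtain ⟨φ, p1, p2⟩ := extraction_of_frequently_atTop (not_eventually.1 k)
    refine nul_of_reg h _ (half_pos hε) (fun n => A (φ n)) (fun n => (h1 _).isPreconnected)
      (fun i j e => h2 (p1.injective.ne e)) fun n => by_contra fun l => p2 n ?_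
    refine (diam_le_of_forall_dist_le (half_pos hε).le fun a ha b hb => ?_).trans_lt
      (half_lt_self hε)
    exact le_of_not_ge fun m => l ⟨a, ha, b, hb, m⟩
  · intro h x U hU hx
    by_contra k
    push Not at k
    obtain ⟨K, hK⟩ := exists_ker hU hx k
    refine Nul.noker (fun δ hδ A h1 h2 h3 => ?_) hK
    have := (tendsto_order.1 (h A (fun n => ⟨?_, h1 n⟩) h2)).2 δ hδ
    · obtain ⟨n, hn⟩ := this.exists
      obtain ⟨a, ha, b, hb, l⟩ := h3 n
      exact absurd (l.trans (dist_le_diam_of_mem isBounded_of_compactSpace ha hb)) (not_le.2 hn)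
    · obtain ⟨a, ha, -⟩ := h3 n
      exact ⟨a, ha⟩

end Pool.Agent.H.MP_77b145_gt
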